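import Pool.Agent.Odp3.Lim.IdealAux

open scoped ContDiff Topology ENNReal NNReal WithZero
open Set MeasureTheory Filter MvPolynomial Pool.Agent.ODP

namespace Pool.Agent.Odp3

section

variable {n d : ℕ} {B : Type} [CommRing B] [Algebra ℂ B] {G : Germ n d B} {x : Pt B}

/-- The points tend to `x` along the ultrafilter. -/
theorem pts_tendsto_hyper (p : Pts G x) (i : Fin 2) (b : B) :
    Tendsto (fun ν => p.p i ν b) (hyperfilter ℕ : Filter ℕ) (nhds (x b)) :=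
  (p.tendsto_p i b).mono_left Nat.hyperfilter_le_atTop

theorem pts_tendsto_q_hyper (p : Pts G x) : Tendsto p.q (hyperfilter ℕ : Filter ℕ) (nhds 0) :=
  p.tendsto_q.mono_left Nat.hyperfilter_le_atTop

theorem pts_proj_x (p : Pts G x) : proj G.y x = 0 := by
  funext j
  have h1 : Tendsto (fun ν => p.p 0 ν (G.y j)) atTop (nhds (x (G.y j))) := p.tendsto_p 0 _
  have h2 : Tendsto (fun ν => p.q ν j) atTop (nhds (0 : ℂ)) := by
    simpa using tendsto_pi_nhds.1 p.tendsto_q j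
  have h3 : (fun ν => p.p 0 ν (G.y j)) = fun ν => p.q ν j := by
    funext ν
    exact congrFun (p.proj_p 0 ν) j
  rw [h3] at h1
  exact tendsto_nhds_unique h1 h2

/-- `JJ` as an ideal. -/
def JIdeal (p : Pts G x) (a : Fin n → ℕ) (N : ℕ) : Ideal B where
  carrier := JJ p a N
  zero_mem' := ⟨fun _ => 0, Eventually.of_forall fun _ _ => vanAt_zero _ _ _, tendsB_const _⟩
  add_mem' := by
    rintro F' H' ⟨F, hF, hF'⟩ ⟨H, hH, hH'⟩
    exact ⟨fun ν => F ν + H ν, (hF.and hH).mono fun ν h i => (h.1 i).add (h.2 i), hF'.add hH'⟩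
  smul_mem' := by
    rintro c F' ⟨F, hF, hF'⟩
    exact ⟨fun ν => c * F ν, hF.mono fun ν h i => (h i).mul_left c, (tendsB_const c).mul hF'⟩

end

variable {n d : ℕ} {B : Type} [CommRing B] [Algebra ℂ B] {G : Germ n d B} {x : Pt B}
  (p : Pts G x)

theorem mem_JI (a : Fin n → ℕ) (N : ℕ) (F : B) : F ∈ JI p a N ↔ F ∈ JJ p a N := by
  have h : JI p a N = JIdeal p a N := le_antisymm (Ideal.span_le.2 fun _ hb => hb)
    fun _ hb => Ideal.subset_span hb
  rw [h]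
  rfl

theorem JI_mul (a : Fin n → ℕ) (N M : ℕ) : JI p a N * JI p a M ≤ JI p a (N + M) := by
  rw [Ideal.mul_le]
  intro F' hF' H' hH'
  rw [mem_JI] at *
  obtain ⟨F, hF, hF'⟩ := hF'
  obtain ⟨H, hH, hH'⟩ := hH'
  exact ⟨fun ν => F ν * H ν, (hF.and hH).mono fun ν h i => (h.1 i).mul (h.2 i), hF'.mul hH'⟩

theorem JI_anti (a : Fin n → ℕ) : Antitone (JI p a) := by
  intro N M hNM F' hF'
  rw [mem_JI] at *
  obtain ⟨F, hF, hF'⟩ := hF'
  exact ⟨F, hF.mono fun ν h i => (h i).anti hNM, hF'⟩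

theorem mono_mem_JI (a : Fin n → ℕ) {N : ℕ} {m : Fin n → ℕ} (h : N ≤ ∑ j, a j * m j) :
    ∏ j, G.y j ^ m j ∈ JI p a N := by
  rw [mem_JI]
  refine ⟨fun ν => ∏ j, (G.y j - algebraMap ℂ B (p.q ν j)) ^ m j,
    Eventually.of_forall fun ν i => vanAt_prod a h _ (p.proj_p i ν), ?_⟩
  refine TendsB.prod _ fun j _ => TendsB.pow (tendsB_sub_algebraMap _ ?_) _
  simpa using tendsto_pi_nhds.1 (pts_tendsto_q_hyper p) j

theorem pow_mem_JI {a : Fin n → ℕ} (ha : ∀ j, 1 ≤ a j) (N : ℕ) {b : B} (hb : x b = 0) :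
    b ^ (2 * N) ∈ JI p a N := by
  rw [mem_JI]
  refine ⟨fun ν => (b - algebraMap ℂ B (p.p 0 ν b)) ^ N * (b - algebraMap ℂ B (p.p 1 ν b)) ^ N,
    Eventually.of_forall fun ν i => ?_, ?_⟩
  · have h : ∀ i, VanAt G a N (p.p i ν) ((b - algebraMap ℂ B (p.p i ν b)) ^ N) := fun i =>
      vanAt_pow G ha N (by rw [p.proj_p]; exact p.D_ne ν) b
    fin_cases i
    · have h0 := (h 0).mul_left ((b - algebraMap ℂ B (p.p 1 ν b)) ^ N)
      rw [mul_comm] at h0
      exact h0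
    · exact (h 1).mul_left _
  · rw [two_mul, pow_add]
    have h : ∀ i, Tendsto (fun ν => p.p i ν b) (hyperfilter ℕ : Filter ℕ) (nhds 0) := fun i => by
      simpa [hb] using pts_tendsto_hyper p i b
    exact ((tendsB_sub_algebraMap b (h 0)).pow N).mul ((tendsB_sub_algebraMap b (h 1)).pow N)

theorem JI_le_ker {a : Fin n → ℕ} {N : ℕ} (hN : 1 ≤ N) : JI p a N ≤ RingHom.ker x := by
  intro F' hF'
  rw [mem_JI] at hF'
  obtain ⟨F, hF, hF'⟩ := hF'
  have h1 := hF'.tendsto_apply (pts_tendsto_hyper p 0)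
  have h2 : Tendsto (fun ν => p.p 0 ν (F ν)) (hyperfilter ℕ : Filter ℕ) (nhds 0) :=
    tendsto_const_nhds.congr' (hF.mono fun ν h => ((h 0).apply_eq_zero hN).symm)
  exact tendsto_nhds_unique h1 h2

/-- comparison of the weights. -/
theorem JI_one_le {a : Fin n → ℕ} {c M N : ℕ} (hc : ∀ j, c ≤ a j) (h : N ≤ c * M) :
    JI p (one n) M ≤ JI p a N := by
  intro F' hF'
  rw [mem_JI] at *
  obtain ⟨F, hF, hF'⟩ := hF'
  exact ⟨F, hF.mono fun ν hν i => by
    obtain ⟨t, ht, hF⟩ := hν i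
    exact ⟨t, ht, WW_one_le hc h _ hF⟩, hF'⟩

end Pool.Agent.Odp3
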