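import Pool.Agent.Odp3.Defs
import Pool.Agent.Odp3.Lim.Ideal

/-!
# Functions with small values at the two points
-/

open scoped ContDiff Topology ENNReal NNReal WithZero
open Set MeasureTheory Filter MvPolynomial Pool.Agent.ODP

namespace Pool.Agent.Odp3

variable {n d : ℕ} {B : Type} [CommRing B] [IsDomain B] [Algebra ℂ B] {G : Germ n d B} {x : Pt B}
  (p : Pts G x)

omit [IsDomain B] in
/-- A function vanishes to the order one if and only if it vanishes. -/
theorem vanAt_one (a : Fin n → ℕ) (ha : ∀ j, 1 ≤ a j) {χ : Pt B}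
    (hD : eval (proj G.y χ) G.D ≠ 0) (F : B) : VanAt G a 1 χ F ↔ χ F = 0 := by
  refine ⟨fun h => h.apply_eq_zero le_rfl, fun hF => ?_⟩
  obtain ⟨t, ht, h⟩ := exists_sep_point G hD
  refine ⟨t, ht, ?_⟩
  have h1 := PP_pow_le (G := G) ha 1 χ
  rw [pow_one] at h1
  exact h1 (h F hF)

omit [IsDomain B] in
/-- the Lagrange function `∑ p_i(du_k) e_k` takes the value `D(q)` at `p_i` and `0` at the other
point. -/
theorem Eval.lagrange (ν : ℕ) (i i' : Fin 2) :
    p.p i ν (∑ k, algebraMap ℂ B (p.p i' ν (G.du k)) * G.e k) =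
      if i' = i then eval (p.q ν) G.D else 0 := by
  have h1 : p.p i ν (∑ k, algebraMap ℂ B (p.p i' ν (G.du k)) * G.e k) =
      ∑ k, p.p i' ν (G.du k) * p.p i ν (G.e k) := by
    rw [map_sum]
    refine Finset.sum_congr rfl fun k _ => ?_
    rw [map_mul, AlgHom.commutes]
    rfl
  rw [h1]
  have h2 := G.du_spec _ (p.D_ne ν) _ _ (p.proj_p i' ν) (p.proj_p i ν)
  split_ifs with h
  · exact h2.1 (by rw [h])
  · refine h2.2 ?_
    have h4 := p.ne ν
    fin_cases i' <;> fin_cases i <;> simp_all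
    exact fun h => h4 h.symm

/-- a sequence whose values at the two points are small relative to `D` has its limit in `J_1`. -/
theorem mem_JI_of_small {a : Fin n → ℕ} (ha : ∀ j, 1 ≤ a j) {F : ℕ → B} {F' : B}
    (hF : TendsB G F F')
    (h : ∀ i, Tendsto (fun ν => p.p i ν (F ν) / eval (p.q ν) G.D) (hyperfilter ℕ : Filter ℕ)
      (𝓝 0)) : F' ∈ JI p a 1 := by
  rw [mem_JI]
  let s : Fin 2 → ℕ → B := fun i ν => ∑ k, algebraMap ℂ B (p.p i ν (G.du k)) * G.e k
  let r : Fin 2 → ℕ → ℂ := fun i ν => -(p.p i ν (F ν) / eval (p.q ν) G.D)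
  have hs : ∀ i, TendsB G (s i) (∑ k, algebraMap ℂ B (x (G.du k)) * G.e k) := fun i =>
    TendsB.sum _ fun k _ => TendsB.algebraMap_mul (pts_tendsto_hyper p i _) (tendsB_const _)
  have hr : ∀ i, Tendsto (r i) (hyperfilter ℕ : Filter ℕ) (𝓝 0) := fun i => by
    simpa using (h i).neg
  have ht : TendsB G (fun ν => F ν + ∑ i, algebraMap ℂ B (r i ν) * s i ν) F' := by
    have h1 := hF.add (TendsB.sum (G := G) Finset.univ fun i _ =>
      TendsB.algebraMap_mul (hr i) (hs i))
    simpa using h1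
  refine ⟨_, Eventually.of_forall fun ν i => ?_, ht⟩
  rw [vanAt_one a ha (by rw [p.proj_p]; exact p.D_ne ν)]
  have hD := p.D_ne ν
  rw [map_add, map_sum, Finset.sum_eq_single i]
  · rw [map_mul, AlgHom.commutes, Eval.lagrange p ν i i, if_pos rfl]
    change p.p i ν (F ν) + (r i ν) * _ = 0
    simp only [r]
    field_simp
    ring
  · intro i' _ hi'
    rw [map_mul, Eval.lagrange p ν i i', if_neg hi', mul_zero]
  · intro h; exact absurd (Finset.mem_univ i) h

end Pool.Agent.Odp3
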