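import Pool.Agent.Odp3.Lim.Ideal

/-!
# Taylor expansion at a point outside the discriminant
-/

open scoped ContDiff Topology ENNReal NNReal WithZero
open Set MeasureTheory Filter MvPolynomial Pool.Agent.ODP

namespace Pool.Agent.Odp3

variable {n d : ℕ} {B : Type} [CommRing B] [IsDomain B] [Algebra ℂ B] (G : Germ n d B)

/-- the coordinates at `χ` -/
noncomputable def tz (χ : Pt B) (j : Fin n) : B := G.y j - algebraMap ℂ B (χ (G.y j))

omit [IsDomain B] in
theorem tz_PP_le {a : Fin n → ℕ} (ha : ∀ j, 1 ≤ a j) (χ : Pt B) : PP G χ ≤ WW G a 1 χ := by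
  have h := PP_pow_le (G := G) ha 1 χ
  rwa [pow_one] at h

omit [IsDomain B] in
theorem tz_mul_mem {a : Fin n → ℕ} (ha : ∀ j, 1 ≤ a j) {N : ℕ} {χ : Pt B} {u v : B}
    (hu : u ∈ PP G χ) (hv : v ∈ WW G a N χ) : u * v ∈ WW G a (N + 1) χ := by
  have h1 := Ideal.mul_mem_mul (tz_PP_le G ha χ hu) hv
  have h2 := WW_mul_le a 1 N χ h1
  rwa [add_comm] at h2

omit [IsDomain B] in
theorem tz_step {a : Fin n → ℕ} (ha : ∀ j, 1 ≤ a j) (N : ℕ) {χ : Pt B} {t : B}
    (ht : ∀ b : B, χ b = 0 → t * b ∈ PP G χ) {s : B} (hs : χ s ≠ 0) {u : B}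
    (hu : u ∈ WW G a N χ) : ∃ P : MvPolynomial (Fin n) ℂ, aeval (tz G χ) P ∈ WW G a N χ ∧
      t * (u - s * aeval (tz G χ) P) ∈ WW G a (N + 1) χ := by
  have key : ∀ u ∈ WW G a N χ, ∃ P : MvPolynomial (Fin n) ℂ, aeval (tz G χ) P ∈ WW G a N χ ∧
      t * (u - s * aeval (tz G χ) P) ∈ WW G a (N + 1) χ := by
    intro u hu
    refine Submodule.span_induction ?_ ?_ ?_ ?_ hu
    · rintro _ ⟨m, hm, rfl⟩
      have hmem : (∏ j, (G.y j - algebraMap ℂ B (χ (G.y j))) ^ m j) ∈ WW G a N χ :=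
        Ideal.subset_span ⟨m, hm, rfl⟩
      have hP : aeval (tz G χ) (C (χ s)⁻¹ * ∏ j, X j ^ m j : MvPolynomial (Fin n) ℂ) =
          algebraMap ℂ B (χ s)⁻¹ * ∏ j, (G.y j - algebraMap ℂ B (χ (G.y j))) ^ m j := by
        rw [map_mul, aeval_C, map_prod]
        congr 1
        refine Finset.prod_congr rfl fun j _ => ?_
        rw [map_pow, aeval_X]
        rfl
      refine ⟨C (χ s)⁻¹ * ∏ j, X j ^ m j, ?_, ?_⟩
      · rw [hP]
        exact Ideal.mul_mem_left _ _ hmem
      · rw [hP]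
        have h1 : χ (1 - s * algebraMap ℂ B (χ s)⁻¹) = 0 := by
          rw [map_sub, map_one, map_mul, AlgHom.commutes]
          change 1 - χ s * (χ s)⁻¹ = 0
          rw [mul_inv_cancel₀ hs, sub_self]
        have h2 := tz_mul_mem G ha (ht _ h1) hmem
        convert h2 using 1
        ring
    · exact ⟨0, by rw [map_zero]; exact Ideal.zero_mem _, by
        rw [map_zero, mul_zero, sub_zero, mul_zero]; exact Ideal.zero_mem _⟩
    · rintro u v _ _ ⟨P, hP1, hP2⟩ ⟨R, hR1, hR2⟩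
      refine ⟨P + R, ?_, ?_⟩
      · rw [map_add]
        exact Ideal.add_mem _ hP1 hR1
      · have h1 := Ideal.add_mem _ hP2 hR2
        rw [map_add]
        convert h1 using 1
        ring
    · rintro r u _ ⟨P, hP1, hP2⟩
      refine ⟨C (χ r) * P, ?_, ?_⟩
      · rw [map_mul]
        exact Ideal.mul_mem_left _ _ hP1
      · have h1 : χ (r - algebraMap ℂ B (χ r)) = 0 := by
          rw [map_sub, AlgHom.commutes]
          exact sub_self _
        have h2 := tz_mul_mem G ha (ht _ h1) hP1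
        have h3 := Ideal.add_mem _ (Ideal.mul_mem_left _ r hP2) (Ideal.mul_mem_left _ s h2)
        rw [map_mul, aeval_C, smul_eq_mul]
        convert h3 using 1
        ring
  exact key u hu

/-- Taylor polynomials. -/
theorem tz_taylor {a : Fin n → ℕ} (ha : ∀ j, 1 ≤ a j) {χ : Pt B}
    (hD : eval (proj G.y χ) G.D ≠ 0) (b : B) (N : ℕ) : ∃ P : MvPolynomial (Fin n) ℂ,
    VanAt G a N χ (b - aeval (tz G χ) P) := by
  obtain ⟨t, htx, ht⟩ := exists_sep_point G hD
  induction N with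
  | zero =>
    refine ⟨0, 1, by simp, ?_⟩
    have h0 : WW G a 0 χ = ⊤ :=
      (Ideal.eq_top_iff_one _).2 (Ideal.subset_span ⟨0, by simp, by simp⟩)
    change _ ∈ WW G a 0 χ
    rw [h0]
    trivial
  | succ N ih =>
    obtain ⟨P, s, hs, hP⟩ := ih
    obtain ⟨R, -, hR⟩ := tz_step G ha N ht hs hP
    refine ⟨P + R, t * s, ?_, ?_⟩
    · rw [map_mul]
      exact mul_ne_zero htx hs
    · change _ ∈ WW G a (N + 1) χ
      rw [map_add]
      convert hR using 1
      ring

omit [IsDomain B] in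
theorem tz_monomial (χ : Pt B) (m : Fin n →₀ ℕ) (c : ℂ) :
    aeval (tz G χ) (monomial m c) =
      algebraMap ℂ B c * ∏ j, (G.y j - algebraMap ℂ B (χ (G.y j))) ^ m j := by
  rw [aeval_monomial, Finsupp.prod_fintype]
  · rfl
  · intro j
    exact pow_zero _

/-- Modulo the functions vanishing to the weighted order `N` at `χ`, every function is a
polynomial of weighted order less than `N` in `y - χ(y)`. -/
theorem exists_taylor_van' {a : Fin n → ℕ} (ha : ∀ j, 1 ≤ a j) (N : ℕ) {χ : Pt B}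
    (hD : eval (proj G.y χ) G.D ≠ 0) (S : Finset (Fin n → ℕ))
    (hS : ∀ m, m ∈ S ↔ ∑ j, a j * m j < N) (b : B) : ∃ c : (Fin n → ℕ) → ℂ,
    VanAt G a N χ (b - ∑ m ∈ S, algebraMap ℂ B (c m) *
      ∏ j, (G.y j - algebraMap ℂ B (χ (G.y j))) ^ m j) := by
  classical
  obtain ⟨P, hP⟩ := tz_taylor G ha hD b N
  refine ⟨fun m => coeff (Finsupp.equivFunOnFinite.symm m) P, ?_⟩
  set μ : (Fin n → ℕ) → B := fun m => ∏ j, (G.y j - algebraMap ℂ B (χ (G.y j))) ^ m j with hμ
  let T : Finset (Fin n → ℕ) := Finset.image (fun m : Fin n →₀ ℕ => (⇑m : Fin n → ℕ)) P.support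
  have h1 : aeval (tz G χ) P = ∑ m ∈ T, algebraMap ℂ B
      (coeff (Finsupp.equivFunOnFinite.symm m) P) * μ m := by
    conv_lhs => rw [P.as_sum]
    rw [map_sum, Finset.sum_image]
    · refine Finset.sum_congr rfl fun m _ => ?_
      rw [tz_monomial]
      congr 3
      ext j
      rfl
    · intro m _ m' _ h
      exact DFunLike.coe_injective h
  have h2 : ∀ (U : Finset (Fin n → ℕ)), T ⊆ U → aeval (tz G χ) P = ∑ m ∈ U, algebraMap ℂ B
      (coeff (Finsupp.equivFunOnFinite.symm m) P) * μ m := by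
    intro U hU
    rw [h1]
    refine Finset.sum_subset hU fun m _ hm => ?_
    have h3 : coeff (Finsupp.equivFunOnFinite.symm m) P = 0 := by
      by_contra hne
      apply hm
      exact Finset.mem_image.2 ⟨Finsupp.equivFunOnFinite.symm m, mem_support_iff.2 hne, rfl⟩
    rw [h3, map_zero, zero_mul]
  have h3 := h2 (S ∪ T) Finset.subset_union_right
  have h4 : ∑ m ∈ S ∪ T, algebraMap ℂ B (coeff (Finsupp.equivFunOnFinite.symm m) P) * μ m =
      ∑ m ∈ S, algebraMap ℂ B (coeff (Finsupp.equivFunOnFinite.symm m) P) * μ m +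
      ∑ m ∈ (S ∪ T) \ S, algebraMap ℂ B (coeff (Finsupp.equivFunOnFinite.symm m) P) * μ m := by
    rw [add_comm]
    exact (Finset.sum_sdiff Finset.subset_union_left).symm
  have h5 : b - ∑ m ∈ S, algebraMap ℂ B (coeff (Finsupp.equivFunOnFinite.symm m) P) * μ m =
      (b - aeval (tz G χ) P) +
      ∑ m ∈ (S ∪ T) \ S, algebraMap ℂ B (coeff (Finsupp.equivFunOnFinite.symm m) P) * μ m := by
    rw [h3, h4]
    ring
  have h6 : ∀ U : Finset (Fin n → ℕ), (∀ m ∈ U, N ≤ ∑ j, a j * m j) → VanAt G a N χ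
      (∑ m ∈ U, algebraMap ℂ B (coeff (Finsupp.equivFunOnFinite.symm m) P) * μ m) := by
    intro U
    induction U using Finset.induction_on with
    | empty => intro _; simpa using vanAt_zero a N χ
    | insert m U hm ih =>
      intro hU
      rw [Finset.sum_insert hm]
      exact ((vanAt_prod a (hU m (Finset.mem_insert_self _ _)) χ rfl).mul_left _).add
        (ih fun m' hm' => hU m' (Finset.mem_insert_of_mem hm'))
  change VanAt G a N χ (b - ∑ m ∈ S, algebraMap ℂ B
    (coeff (Finsupp.equivFunOnFinite.symm m) P) * μ m)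
  rw [h5]
  refine hP.add (h6 _ fun m hm => ?_)
  have h7 := (Finset.mem_sdiff.1 hm).2
  rw [hS] at h7
  exact not_lt.1 h7

end Pool.Agent.Odp3
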