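import Pool.Agent.Odp3.Lim.Eval
import Pool.Agent.Odp3.Lim.Taylor
import Pool.Agent.Odp3.Pt.Red

/-!
# The colength of the limit ideals
-/

open scoped ContDiff Topology ENNReal NNReal WithZero
open Set MeasureTheory Filter MvPolynomial Pool.Agent.ODP

namespace Pool.Agent.Odp3

/-- normalised nonzero vectors have a nonzero limit. -/
theorem cl_lim {κ : Type} [Fintype κ] {P : ℕ → (κ → ℂ) → Prop}
    (hP : ∀ ν c, P ν c → ∀ t : ℂ, P ν (t • c))
    (h : ∀ᶠ ν in (hyperfilter ℕ : Filter ℕ), ∃ c : κ → ℂ, c ≠ 0 ∧ P ν c) :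
    ∃ c' : κ → ℂ, c' ≠ 0 ∧ ∃ c : ℕ → κ → ℂ, (∀ᶠ ν in (hyperfilter ℕ : Filter ℕ), P ν (c ν)) ∧
      Tendsto c (hyperfilter ℕ : Filter ℕ) (nhds c') := by
  classical
  have h1 : ∀ᶠ ν in (hyperfilter ℕ : Filter ℕ), ∃ c : κ → ℂ, ‖c‖ = 1 ∧ P ν c := by
    filter_upwards [h] with ν hν
    obtain ⟨c, hc, hPc⟩ := hν
    refine ⟨((‖c‖⁻¹ : ℝ) : ℂ) • c, ?_, hP ν c hPc _⟩
    rw [norm_smul, Complex.norm_real, norm_inv, norm_norm, inv_mul_cancel₀ (norm_ne_zero_iff.2 hc)]
  let c : ℕ → κ → ℂ := fun ν => if h : ∃ c : κ → ℂ, ‖c‖ = 1 ∧ P ν c then h.choose else 0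
  have h2 : ∀ᶠ ν in (hyperfilter ℕ : Filter ℕ), ‖c ν‖ = 1 ∧ P ν (c ν) := by
    filter_upwards [h1] with ν hν
    have h3 : c ν = hν.choose := dif_pos hν
    rw [h3]
    exact hν.choose_spec
  have h3 : Metric.sphere (0 : κ → ℂ) 1 ∈ (hyperfilter ℕ).map c := by
    refine Ultrafilter.mem_map.2 (h2.mono fun ν hν => ?_)
    rw [mem_sphere_zero_iff_norm]
    exact hν.1
  obtain ⟨c', hc', hlim⟩ := (isCompact_sphere (0 : κ → ℂ) 1).ultrafilter_le_nhds
    ((hyperfilter ℕ).map c) (le_principal_iff.2 h3)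
  refine ⟨c', ?_, c, h2.mono fun ν h => h.2, hlim⟩
  rintro rfl
  simp at hc'

theorem cl_finite {n : ℕ} {a : Fin n → ℕ} (ha : ∀ j, 1 ≤ a j) (N : ℕ) :
    {m : Fin n → ℕ | ∑ j, a j * m j < N}.Finite := by
  refine (Set.Finite.pi' (t := fun _ : Fin n => Set.Iio N) fun _ => Set.finite_Iio N).subset ?_
  intro m hm j
  rw [Set.mem_Iio]
  have hm' : ∑ j, a j * m j < N := hm
  refine lt_of_le_of_lt ?_ hm'
  calc m j = 1 * m j := (one_mul _).symm
    _ ≤ a j * m j := Nat.mul_le_mul_right _ (ha j)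
    _ ≤ ∑ j, a j * m j := Finset.single_le_sum (f := fun j => a j * m j)
        (fun _ _ => Nat.zero_le _) (Finset.mem_univ j)

variable {n d : ℕ} {B : Type} [CommRing B] [IsDomain B] [Algebra ℂ B] {G : Germ n d B} {x : Pt B}
  (p : Pts G x)

/-- Modulo the functions vanishing to the weighted order `N` at `χ`, every function is a
polynomial of weighted order less than `N` in `y - χ(y)`. -/
theorem exists_taylor_van {a : Fin n → ℕ} (ha : ∀ j, 1 ≤ a j) (N : ℕ) {χ : Pt B}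
    (hD : eval (proj G.y χ) G.D ≠ 0) (S : Finset (Fin n → ℕ))
    (hS : ∀ m, m ∈ S ↔ ∑ j, a j * m j < N) (b : B) : ∃ c : (Fin n → ℕ) → ℂ,
    VanAt G a N χ (b - ∑ m ∈ S, algebraMap ℂ B (c m) *
      ∏ j, (G.y j - algebraMap ℂ B (χ (G.y j))) ^ m j) :=
  exists_taylor_van' G ha N hD S hS b

/-- the functions which vanish to the order `N` -/
def clI (G : Germ n d B) (a : Fin n → ℕ) (N : ℕ) (χ : Pt B) : Ideal B where
  carrier := {F | VanAt G a N χ F}
  zero_mem' := vanAt_zero a N χ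
  add_mem' := fun h h' => h.add h'
  smul_mem' := fun c _ h => h.mul_left c

theorem cl_codim {a : Fin n → ℕ} (ha : ∀ j, 1 ≤ a j) (N : ℕ) {χ : Pt B}
    (hD : eval (proj G.y χ) G.D ≠ 0) : Module.Finite ℂ (B ⧸ clI G a N χ) ∧
      Module.finrank ℂ (B ⧸ clI G a N χ) ≤ {m : Fin n → ℕ | ∑ j, a j * m j < N}.ncard := by
  classical
  have hfin := cl_finite ha N
  set S := hfin.toFinset with hS
  have hS' : ∀ m, m ∈ S ↔ ∑ j, a j * m j < N := fun m => by rw [hS, Set.Finite.mem_toFinset]; rfl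
  let f : (S → ℂ) →ₗ[ℂ] (B ⧸ clI G a N χ) := Fintype.linearCombination ℂ fun m : S =>
    Ideal.Quotient.mk (clI G a N χ) (∏ j, (G.y j - algebraMap ℂ B (χ (G.y j))) ^ m.1 j)
  have hf : Function.Surjective f := by
    intro z
    obtain ⟨b, rfl⟩ := Ideal.Quotient.mk_surjective z
    obtain ⟨c, hc⟩ := exists_taylor_van ha N hD S hS' b
    refine ⟨fun m => c m.1, ?_⟩
    rw [Fintype.linearCombination_apply]
    have h1 : Ideal.Quotient.mk (clI G a N χ) b = Ideal.Quotient.mk (clI G a N χ)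
        (∑ m ∈ S, algebraMap ℂ B (c m) * ∏ j, (G.y j - algebraMap ℂ B (χ (G.y j))) ^ m j) := by
      rw [Ideal.Quotient.eq]
      exact hc
    rw [h1, map_sum, ← Finset.sum_coe_sort S]
    refine Finset.sum_congr rfl fun m _ => ?_
    rw [← Algebra.smul_def]
    rfl
  refine ⟨Module.Finite.of_surjective f hf, ?_⟩
  have h1 := LinearMap.finrank_le_finrank_of_surjective hf
  rw [Module.finrank_fintype_fun_eq_card, Fintype.card_coe] at h1
  rwa [Set.ncard_eq_toFinset_card _ hfin]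

/-- Any `2 # {m | ∑ a_j m_j < N} + 1` functions have a nontrivial combination in `J_N`. -/
theorem exists_comb_JI {a : Fin n → ℕ} (ha : ∀ j, 1 ≤ a j) (N : ℕ) {k : ℕ}
    (hk : 2 * {m : Fin n → ℕ | ∑ j, a j * m j < N}.ncard < k) (F : Fin k → B) :
    ∃ c : Fin k → ℂ, c ≠ 0 ∧ ∑ i, algebraMap ℂ B (c i) * F i ∈ JI p a N := by
  classical
  obtain ⟨c', hc', c, hc, hlim⟩ := cl_lim (κ := Fin k)
    (P := fun ν c => ∀ i, VanAt G a N (p.p i ν) (∑ j, algebraMap ℂ B (c j) * F j))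
    (fun ν c h t i => by
      have h1 : ∑ j, algebraMap ℂ B ((t • c) j) * F j =
          algebraMap ℂ B t * ∑ j, algebraMap ℂ B (c j) * F j := by
        rw [Finset.mul_sum]
        refine Finset.sum_congr rfl fun j _ => ?_
        rw [Pi.smul_apply, smul_eq_mul, map_mul, mul_assoc]
      rw [h1]
      exact (h i).mul_left _)
    (Eventually.of_forall fun ν => by
      have hD : ∀ i, eval (proj G.y (p.p i ν)) G.D ≠ 0 := fun i => by
        rw [p.proj_p]
        exact p.D_ne ν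
      obtain ⟨hf0, hr0⟩ := cl_codim (G := G) ha N (hD 0)
      obtain ⟨hf1, hr1⟩ := cl_codim (G := G) ha N (hD 1)
      let f : (Fin k → ℂ) →ₗ[ℂ] (B ⧸ clI G a N (p.p 0 ν)) × (B ⧸ clI G a N (p.p 1 ν)) :=
        (Fintype.linearCombination ℂ fun j => Ideal.Quotient.mk (clI G a N (p.p 0 ν)) (F j)).prod
          (Fintype.linearCombination ℂ fun j => Ideal.Quotient.mk (clI G a N (p.p 1 ν)) (F j))
      have h1 : LinearMap.ker f ≠ ⊥ := by
        refine LinearMap.ker_ne_bot_of_finrank_lt ?_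
        rw [Module.finrank_prod, Module.finrank_fintype_fun_eq_card, Fintype.card_fin]
        omega
      obtain ⟨c, hc, hc0⟩ := Submodule.exists_mem_ne_zero_of_ne_bot h1
      refine ⟨c, hc0, ?_⟩
      rw [LinearMap.mem_ker] at hc
      have hc1 := congrArg Prod.fst hc
      have hc2 := congrArg Prod.snd hc
      change Fintype.linearCombination ℂ
        (fun j => Ideal.Quotient.mk (clI G a N (p.p 0 ν)) (F j)) c = 0 at hc1
      change Fintype.linearCombination ℂ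
        (fun j => Ideal.Quotient.mk (clI G a N (p.p 1 ν)) (F j)) c = 0 at hc2
      have h2 : ∀ i, Ideal.Quotient.mk (clI G a N (p.p i ν))
          (∑ j, algebraMap ℂ B (c j) * F j) = Fintype.linearCombination ℂ
            (fun j => Ideal.Quotient.mk (clI G a N (p.p i ν)) (F j)) c := by
        intro i
        rw [Fintype.linearCombination_apply, map_sum]
        refine Finset.sum_congr rfl fun j _ => ?_
        rw [← Algebra.smul_def]
        rfl
      rw [Fin.forall_fin_two]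
      constructor
      · have h3 := h2 0
        rw [hc1, Ideal.Quotient.eq_zero_iff_mem] at h3
        exact h3
      · have h3 := h2 1
        rw [hc2, Ideal.Quotient.eq_zero_iff_mem] at h3
        exact h3)
  refine ⟨c', hc', ?_⟩
  rw [mem_JI]
  exact ⟨fun ν => ∑ i, algebraMap ℂ B (c ν i) * F i, hc,
    k, F, c, c', Eventually.of_forall fun _ => rfl, fun i => tendsto_pi_nhds.1 hlim i, rfl⟩

theorem cl_rank {a : Fin n → ℕ} (ha : ∀ j, 1 ≤ a j) (N : ℕ) :
    Module.rank ℂ (B ⧸ JI p a N) ≤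
      ((2 * {m : Fin n → ℕ | ∑ j, a j * m j < N}.ncard : ℕ) : Cardinal) := by
  classical
  refine rank_le fun s hs => ?_
  by_contra hcon
  push Not at hcon
  let σ := s.equivFin
  choose v hv using fun k : Fin s.card => Ideal.Quotient.mk_surjective ((σ.symm k : B ⧸ JI p a N))
  obtain ⟨c, hc0, hc⟩ := exists_comb_JI p ha N hcon v
  have h1 : ∑ k, c k • ((σ.symm k : s) : B ⧸ JI p a N) = 0 := by
    rw [← (Ideal.Quotient.eq_zero_iff_mem).2 hc, map_sum]
    refine Finset.sum_congr rfl fun k _ => ?_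
    rw [← Algebra.smul_def, ← hv k]
    rfl
  have h2 : LinearIndependent ℂ fun k => ((σ.symm k : s) : B ⧸ JI p a N) :=
    hs.comp σ.symm σ.symm.injective
  rw [Fintype.linearIndependent_iff] at h2
  exact hc0 (funext fun k => h2 c h1 k)

theorem finite_quot_JI {a : Fin n → ℕ} (ha : ∀ j, 1 ≤ a j) (N : ℕ) :
    Module.Finite ℂ (B ⧸ JI p a N) := by
  rw [← Module.rank_lt_aleph0_iff]
  exact (cl_rank p ha N).trans_lt (Cardinal.natCast_lt_aleph0)

/-- **The colength of `J_N`** is at most the one of the functions vanishing to the order `N` at two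
points. -/
theorem colength_JI {a : Fin n → ℕ} (ha : ∀ j, 1 ≤ a j) (N : ℕ) :
    colength ℂ (JI p a N) ≤ 2 * {m : Fin n → ℕ | ∑ j, a j * m j < N}.ncard :=
  Module.finrank_le_of_rank_le (cl_rank p ha N)

/-- The two points do not become one in the limit. -/
theorem JI_one_ne_ker : JI p (one n) 1 ≠ RingHom.ker x := by
  classical
  intro hJ
  obtain ⟨k, E, hE⟩ := G.exists_gen
  -- the difference quotients
  set v : ℕ → Fin k → ℂ := fun ν i => p.p 0 ν (E i) - p.p 1 ν (E i) with hv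
  have hexp : ∀ (ν : ℕ) (b : B) (c : Fin k → MvPolynomial (Fin n) ℂ),
      b = ∑ i, aeval G.y (c i) * E i →
      p.p 0 ν b - p.p 1 ν b = ∑ i, eval (p.q ν) (c i) * v ν i := by
    intro ν b c hb
    have h1 : ∀ j, p.p j ν b = ∑ i, eval (p.q ν) (c i) * p.p j ν (E i) := by
      intro j
      conv_lhs => rw [hb, map_sum]
      refine Finset.sum_congr rfl fun i _ => ?_
      rw [map_mul, bdd_aeval, p.proj_p]
    rw [h1, h1, ← Finset.sum_sub_distrib]
    refine Finset.sum_congr rfl fun i _ => ?_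
    rw [hv]
    ring
  have hv0 : ∀ ν, v ν ≠ 0 := by
    intro ν h
    apply p.ne ν
    ext b
    obtain ⟨c, hc⟩ := hE b
    have h1 := hexp ν b c hc
    rw [h] at h1
    simpa [sub_eq_zero] using h1
  let u : ℕ → Fin k → ℂ := fun ν => ((‖v ν‖⁻¹ : ℝ) : ℂ) • v ν
  have hu : ∀ ν, ‖u ν‖ = 1 := by
    intro ν
    rw [norm_smul, Complex.norm_real, norm_inv, norm_norm,
      inv_mul_cancel₀ (norm_ne_zero_iff.2 (hv0 ν))]
  have h3 : Metric.sphere (0 : Fin k → ℂ) 1 ∈ (hyperfilter ℕ).map u := by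
    refine Ultrafilter.mem_map.2 (Eventually.of_forall fun ν => ?_)
    rw [mem_sphere_zero_iff_norm]
    exact hu ν
  obtain ⟨u', hu', hlim⟩ := (isCompact_sphere (0 : Fin k → ℂ) 1).ultrafilter_le_nhds
    ((hyperfilter ℕ).map u) (le_principal_iff.2 h3)
  have hlim' : Tendsto u (hyperfilter ℕ : Filter ℕ) (𝓝 u') := hlim
  have hu'0 : u' ≠ 0 := by
    rintro rfl
    simp at hu'
  obtain ⟨i₀, hi₀⟩ : ∃ i, u' i ≠ 0 := by
    by_contra! hcon
    exact hu'0 (funext hcon)
  set z : B := E i₀ - algebraMap ℂ B (x (E i₀)) with hz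
  have hzJ : z ∈ JI p (one n) 1 := by
    rw [hJ, RingHom.mem_ker, hz, map_sub, AlgHom.commutes]
    exact sub_self _
  rw [mem_JI] at hzJ
  obtain ⟨F, hF, m, g, c, c', hc1, hc2, hc3⟩ := hzJ
  -- the limits of the difference quotients
  let T : ℕ → B → ℂ := fun ν b => ((‖v ν‖⁻¹ : ℝ) : ℂ) * (p.p 0 ν b - p.p 1 ν b)
  have hT : ∀ b, ∃ δ, Tendsto (fun ν => T ν b) (hyperfilter ℕ : Filter ℕ) (𝓝 δ) := by
    intro b
    obtain ⟨cb, hcb⟩ := hE b
    refine ⟨∑ i, eval 0 (cb i) * u' i, ?_⟩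
    have h4 : ∀ ν, T ν b = ∑ i, eval (p.q ν) (cb i) * u ν i := by
      intro ν
      change ((‖v ν‖⁻¹ : ℝ) : ℂ) * (p.p 0 ν b - p.p 1 ν b) = _
      rw [hexp ν b cb hcb, Finset.mul_sum]
      refine Finset.sum_congr rfl fun i _ => ?_
      change _ = _ * ((‖v ν‖⁻¹ : ℝ) : ℂ) • v ν i
      rw [smul_eq_mul]
      ring
    simp only [h4]
    refine tendsto_finsetSum _ fun i _ => Tendsto.mul ?_ (tendsto_pi_nhds.1 hlim' i)
    have h5 : Continuous fun w : Fin n → ℂ => eval w (cb i) := MvPolynomial.continuous_eval _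
    exact (h5.tendsto 0).comp (pts_tendsto_q_hyper p)
  choose δ hδ using hT
  have hTz : ∀ ν, T ν z = u ν i₀ := by
    intro ν
    change ((‖v ν‖⁻¹ : ℝ) : ℂ) * (p.p 0 ν z - p.p 1 ν z) = ((‖v ν‖⁻¹ : ℝ) : ℂ) • v ν i₀
    rw [hz, map_sub, map_sub, AlgHom.commutes, AlgHom.commutes, sub_sub_sub_cancel_right,
      smul_eq_mul]
  have h4 : δ z = u' i₀ :=
    tendsto_nhds_unique (hδ z) (by simpa only [hTz] using tendsto_pi_nhds.1 hlim' i₀)
  have hTs : ∀ ν (e : Fin m → ℂ), T ν (∑ i, algebraMap ℂ B (e i) * g i) = ∑ i, e i * T ν (g i) := by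
    intro ν e
    have h5 : ∀ j, p.p j ν (∑ i, algebraMap ℂ B (e i) * g i) = ∑ i, e i * p.p j ν (g i) := by
      intro j
      rw [map_sum]
      refine Finset.sum_congr rfl fun i _ => ?_
      rw [map_mul, AlgHom.commutes]
      rfl
    change ((‖v ν‖⁻¹ : ℝ) : ℂ) * (p.p 0 ν _ - p.p 1 ν _) = _
    rw [h5, h5, ← Finset.sum_sub_distrib, Finset.mul_sum]
    refine Finset.sum_congr rfl fun i _ => ?_
    change _ = e i * (((‖v ν‖⁻¹ : ℝ) : ℂ) * (p.p 0 ν (g i) - p.p 1 ν (g i)))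
    ring
  have h5 : δ z = ∑ i, c' i * δ (g i) := by
    refine tendsto_nhds_unique (hδ z) ?_
    rw [hc3]
    simp only [hTs]
    exact tendsto_finsetSum _ fun i _ => tendsto_const_nhds.mul (hδ (g i))
  have h6 : Tendsto (fun ν => ∑ i, c ν i * T ν (g i)) (hyperfilter ℕ : Filter ℕ)
      (𝓝 (∑ i, c' i * δ (g i))) :=
    tendsto_finsetSum _ fun i _ => (hc2 i).mul (hδ (g i))
  have h7 : ∀ᶠ ν in (hyperfilter ℕ : Filter ℕ), ∑ i, c ν i * T ν (g i) = 0 := by
    filter_upwards [hF, hc1] with ν h8 h9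
    rw [← hTs, ← h9]
    change ((‖v ν‖⁻¹ : ℝ) : ℂ) * (p.p 0 ν (F ν) - p.p 1 ν (F ν)) = 0
    rw [(h8 0).apply_eq_zero le_rfl, (h8 1).apply_eq_zero le_rfl, sub_zero, mul_zero]
  have h8 : ∑ i, c' i * δ (g i) = 0 :=
    tendsto_nhds_unique h6 (tendsto_const_nhds.congr' (h7.mono fun _ h => h.symm))
  exact hi₀ (by rw [← h4, h5, h8])

/-- There is an element of the maximal ideal outside of the ideal of colength two. -/
theorem exists_z : ∃ z : B, x z = 0 ∧ z ∉ JI p (one n) 1 := by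
  by_contra! hcon
  exact JI_one_ne_ker p (le_antisymm (JI_le_ker p le_rfl) fun z hz => hcon z hz)

/-- `J_1` and two elements span: if `z` is in the maximal ideal but not in `J_1`, then the maximal
ideal is `ℂ z + J_1`. -/
theorem exists_sub_mem_JI_one {z : B} (hz : x z = 0) (hz1 : z ∉ JI p (one n) 1) {b : B}
    (hb : x b = 0) : ∃ c : ℂ, b - algebraMap ℂ B c * z ∈ JI p (one n) 1 := by
  have hone : {m : Fin n → ℕ | ∑ j, one n j * m j < 1}.ncard = 1 := by
    have h1 : {m : Fin n → ℕ | ∑ j, one n j * m j < 1} = {0} := by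
      ext m
      rw [Set.mem_ofPred_eq, Set.mem_singleton_iff, Nat.lt_one_iff, Finset.sum_eq_zero_iff]
      constructor
      · intro h
        funext j
        simpa [one] using h j (Finset.mem_univ j)
      · rintro rfl j _
        simp
    rw [h1, Set.ncard_singleton]
  obtain ⟨c, hc0, hc⟩ := exists_comb_JI p (a := one n) (fun _ => le_rfl) 1 (k := 3)
    (by rw [hone]; norm_num) ![1, z, b]
  rw [Fin.sum_univ_three] at hc
  change algebraMap ℂ B (c 0) * 1 + algebraMap ℂ B (c 1) * z + algebraMap ℂ B (c 2) * b ∈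
    JI p (one n) 1 at hc
  have h0 : c 0 = 0 := by
    have h1 := JI_le_ker p le_rfl hc
    rw [RingHom.mem_ker, map_add, map_add, map_mul, map_mul, map_mul, map_one, hz, hb, mul_zero,
      mul_zero, add_zero, add_zero, mul_one, AlgHom.commutes] at h1
    exact h1
  rw [h0, map_zero, zero_mul, zero_add] at hc
  have h2 : c 2 ≠ 0 := by
    intro h
    rw [h, map_zero, zero_mul, add_zero] at hc
    have h1 : c 1 = 0 := by
      by_contra hne
      apply hz1
      have h3 := Ideal.mul_mem_left _ (algebraMap ℂ B (c 1)⁻¹) hc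
      rwa [← mul_assoc, ← map_mul, inv_mul_cancel₀ hne, map_one, one_mul] at h3
    apply hc0
    funext i
    fin_cases i
    · exact h0
    · exact h1
    · exact h
  refine ⟨-(c 1 * (c 2)⁻¹), ?_⟩
  have h3 := Ideal.mul_mem_left _ (algebraMap ℂ B (c 2)⁻¹) hc
  have h4 : algebraMap ℂ B (c 2)⁻¹ * (algebraMap ℂ B (c 1) * z + algebraMap ℂ B (c 2) * b) =
      b - algebraMap ℂ B (-(c 1 * (c 2)⁻¹)) * z := by
    have h5 : algebraMap ℂ B (c 2)⁻¹ * algebraMap ℂ B (c 2) = 1 := by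
      rw [← map_mul, inv_mul_cancel₀ h2, map_one]
    rw [map_neg, map_mul]
    linear_combination b * h5
  rwa [h4] at h3

end Pool.Agent.Odp3
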