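import Pool.Agent.Odp3.Defs
import Pool.Agent.Odp3.Lim.Ideal
import Pool.Agent.Odp3.Pt.Bdd
import Pool.Agent.Odp3.Pt.Red

open scoped ContDiff Topology ENNReal NNReal WithZero
open Set MeasureTheory Filter MvPolynomial Pool.Agent.ODP

namespace Pool.Agent.Odp3

section

variable {n d : ℕ} {B : Type} [CommRing B] [Algebra ℂ B] {G : Germ n d B}

/-- uniform convergence on the preimage of a ball -/
theorem TendsB.unif {F : ℕ → B} {F' : B} (h : TendsB G F F') (R : ℝ) {ε : ℝ} (hε : 0 < ε) :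
    ∀ᶠ ν in (hyperfilter ℕ : Filter ℕ), ∀ χ : Pt B, nq (proj G.y χ) ≤ R →
      ‖χ (F ν) - χ F'‖ ≤ ε := by
  obtain ⟨k, g, c, c', h1, h2, rfl⟩ := h
  choose Cb hCb using fun i => G.bdd (g i) R
  set E : ℕ → ℝ := fun ν => ∑ i, ‖c ν i - c' i‖ * |Cb i| with hEdef
  have hE : Tendsto E (hyperfilter ℕ : Filter ℕ) (𝓝 0) := by
    have h3 : Tendsto E (hyperfilter ℕ : Filter ℕ) (𝓝 (∑ i, ‖c' i - c' i‖ * |Cb i|)) :=
      tendsto_finsetSum _ fun i _ => (((h2 i).sub_const _).norm).mul_const _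
    simpa using h3
  filter_upwards [hE.eventually_le_const hε, h1] with ν h3 h4 χ hχ
  refine le_trans ?_ h3
  rw [h4, map_sum, map_sum, ← Finset.sum_sub_distrib]
  refine (norm_sum_le _ _).trans (Finset.sum_le_sum fun i _ => ?_)
  have h5 : χ (algebraMap ℂ B (c ν i) * g i) - χ (algebraMap ℂ B (c' i) * g i) =
      (c ν i - c' i) * χ (g i) := by
    rw [map_mul, map_mul, AlgHom.commutes, AlgHom.commutes, ← sub_mul]
    rfl
  rw [h5, norm_mul]
  exact mul_le_mul_of_nonneg_left ((hCb i χ hχ).trans (le_abs_self _)) (norm_nonneg _)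

end

variable {n d : ℕ} {B : Type} [CommRing B] [IsDomain B] [Algebra ℂ B] {G : Germ n d B} {x : Pt B}
  (p : Pts G x)

/-- the generators of `J_N` are uniform limits. -/
theorem JI_gens {a : Fin n → ℕ} (ha : ∀ j, 1 ≤ a j) (N : ℕ) : ∃ (L : ℕ) (f : Fin L → B)
    (F : Fin L → ℕ → B), Ideal.span (range f) = JI p a N ∧
      (∀ m : Fin n → ℕ, ∑ j, m j = N → ∃ l, f l = ∏ j, G.y j ^ m j) ∧
      (∀ᶠ ν in (hyperfilter ℕ : Filter ℕ), ∀ l i, VanAt G a N (p.p i ν) (F l ν)) ∧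
      ∀ R ε : ℝ, 0 < ε → ∀ᶠ ν in (hyperfilter ℕ : Filter ℕ), ∀ l (χ : Pt B),
        nq (proj G.y χ) ≤ R → ‖χ (F l ν) - χ (f l)‖ ≤ ε := by
  classical
  have := G.red_noeth
  obtain ⟨S, hS⟩ := IsNoetherian.noetherian (JI p a N)
  have hfin : {m : Fin n → ℕ | ∑ j, m j = N}.Finite := by
    refine (Set.Finite.pi fun _ : Fin n => Set.finite_Iic N).subset fun m hm j _ => ?_
    have h1 : m j ≤ ∑ j, m j := Finset.single_le_sum (fun _ _ => Nat.zero_le _) (Finset.mem_univ j)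
    exact h1.trans (le_of_eq hm)
  set T : Finset B := S ∪ hfin.toFinset.image (fun m => ∏ j, G.y j ^ m j) with hT
  have hTJ : ∀ b ∈ T, b ∈ JI p a N := by
    intro b hb
    rcases Finset.mem_union.1 hb with h | h
    · rw [← hS]
      exact Submodule.subset_span h
    · obtain ⟨m, hm, rfl⟩ := Finset.mem_image.1 h
      refine mono_mem_JI p a ?_
      have h1 : ∑ j, m j = N := by simpa using hm
      rw [← h1]
      exact Finset.sum_le_sum fun j _ => Nat.le_mul_of_pos_left _ (ha j)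
  have hspan : Ideal.span (T : Set B) = JI p a N := by
    refine le_antisymm (Ideal.span_le.2 fun b hb => hTJ b hb) ?_
    rw [← hS]
    exact Submodule.span_mono fun b hb => Finset.mem_union_left _ hb
  let e := T.equivFin
  have hJ : ∀ l, ∃ F : ℕ → B, (∀ᶠ ν in (hyperfilter ℕ : Filter ℕ), ∀ i,
      VanAt G a N (p.p i ν) (F ν)) ∧ TendsB G F (e.symm l : B) := by
    intro l
    have h1 := hTJ _ (e.symm l).2
    rw [mem_JI] at h1
    exact h1
  choose F hF1 hF2 using hJ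
  refine ⟨T.card, fun l => (e.symm l : B), F, ?_, ?_, ?_, ?_⟩
  · rw [← hspan]
    congr 1
    ext b
    constructor
    · rintro ⟨l, rfl⟩
      exact (e.symm l).2
    · intro hb
      exact ⟨e ⟨b, hb⟩, by simp⟩
  · intro m hm
    have h1 : ∏ j, G.y j ^ m j ∈ T :=
      Finset.mem_union_right _ (Finset.mem_image.2 ⟨m, by simpa using hm, rfl⟩)
    exact ⟨e ⟨_, h1⟩, by simp⟩
  · exact eventually_all.2 hF1
  · intro R ε hε
    exact eventually_all.2 fun l => (hF2 l).unif R hε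

end Pool.Agent.Odp3
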