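import Pool.Agent.Odp3.Defs

open scoped ContDiff Topology ENNReal NNReal WithZero
open Set MeasureTheory Filter MvPolynomial Pool.Agent.ODP

namespace Pool.Agent.Odp3

/-- The weighted majorant of a monomial of weighted order at least `N`. -/
theorem Van_aux_mono {n : ℕ} {a : Fin n → ℕ} (ha : ∀ j, 1 ≤ a j) {N : ℕ} (hN : 1 ≤ N)
    {m : Fin n → ℕ} (hm : N ≤ ∑ j, a j * m j) {r : Fin n → ℝ} (h0 : ∀ j, 0 ≤ r j)
    (h1 : ∀ j, r j ≤ 1) :
    (∏ j, r j ^ m j) ^ 2 ≤ ∑ j, r j ^ (2 * (N : ℝ) / a j) := by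
  classical
  have hne : (Finset.univ : Finset (Fin n)).Nonempty := by
    by_contra hcon
    rw [Finset.not_nonempty_iff_eq_empty] at hcon
    rw [hcon] at hm
    simp at hm
    omega
  obtain ⟨j0, -, hj0⟩ := Finset.exists_max_image Finset.univ
    (fun j => r j ^ ((1 : ℝ) / a j)) hne
  set M : ℝ := r j0 ^ ((1 : ℝ) / a j0) with hM
  have ha0 : ∀ j, (0 : ℝ) < a j := fun j => by exact_mod_cast (ha j)
  have hM0 : 0 ≤ M := Real.rpow_nonneg (h0 j0) _
  have hM1 : M ≤ 1 := Real.rpow_le_one (h0 j0) (h1 j0) (by have := ha0 j0; positivity)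
  have hr : ∀ j, r j ≤ M ^ a j := by
    intro j
    have h2 : r j ^ ((1 : ℝ) / a j) ≤ M := hj0 j (Finset.mem_univ _)
    have h3 : r j = (r j ^ ((1 : ℝ) / a j)) ^ a j := by
      rw [← Real.rpow_natCast, ← Real.rpow_mul (h0 j), one_div, inv_mul_cancel₀ (ha0 j).ne',
        Real.rpow_one]
    rw [h3]
    exact pow_le_pow_left₀ (Real.rpow_nonneg (h0 j) _) h2 _
  have h4 : ∏ j, r j ^ m j ≤ M ^ N := by
    calc ∏ j, r j ^ m j ≤ ∏ j, (M ^ a j) ^ m j :=
          Finset.prod_le_prod (fun j _ => pow_nonneg (h0 j) _)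
            (fun j _ => pow_le_pow_left₀ (h0 j) (hr j) _)
      _ = M ^ (∑ j, a j * m j) := by
          rw [← Finset.prod_pow_eq_pow_sum]
          exact Finset.prod_congr rfl fun j _ => (pow_mul M (a j) (m j)).symm
      _ ≤ M ^ N := pow_le_pow_of_le_one hM0 hM1 hm
  have h5 : 0 ≤ ∏ j, r j ^ m j := Finset.prod_nonneg fun j _ => pow_nonneg (h0 j) _
  calc (∏ j, r j ^ m j) ^ 2 ≤ (M ^ N) ^ 2 := pow_le_pow_left₀ h5 h4 2
    _ = r j0 ^ (2 * (N : ℝ) / a j0) := by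
        rw [← pow_mul, ← Real.rpow_natCast, hM, ← Real.rpow_mul (h0 j0)]
        congr 1
        push_cast
        ring
    _ ≤ ∑ j, r j ^ (2 * (N : ℝ) / a j) :=
        Finset.single_le_sum (f := fun j => r j ^ (2 * (N : ℝ) / a j))
          (fun j _ => Real.rpow_nonneg (h0 j) _) (Finset.mem_univ j0)

variable {n d : ℕ} {B : Type} [CommRing B] [IsDomain B] [Algebra ℂ B] {G : Germ n d B}

/-- Functions vanishing to the weighted order `N` at a point of a section are bounded by the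
weighted distance. -/
theorem VanAt.bound {a : Fin n → ℕ} (ha : ∀ j, 1 ≤ a j) {N : ℕ} (hN : 1 ≤ N) {F : B} {V : Set (Pt B)}
    {Ω : Set (Fin n → ℂ)} {s : (Fin n → ℂ) → Pt B} (hs : IsSec G V Ω s) {q : Fin n → ℂ}
    (hq : q ∈ Ω) (hF : VanAt G a N (s q) F) :
    ∃ C t : ℝ, 0 < C ∧ 0 < t ∧ ∀ w : Fin n → ℂ, (∀ j, ‖w j - q j‖ < t) → w ∈ Ω ∧
      ‖s w F‖ ^ 2 ≤ C * ∑ j, ‖w j - q j‖ ^ (2 * (N : ℝ) / a j) := by
  classical
  obtain ⟨t₀, ht₀, hmem⟩ := hF
  set δ : (Fin n → ℂ) → ℝ := fun w => ∑ j, ‖w j - q j‖ ^ (2 * (N : ℝ) / a j) with hδ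
  have hδ0 : ∀ w, 0 ≤ δ w := fun w =>
    Finset.sum_nonneg fun j _ => Real.rpow_nonneg (norm_nonneg _) _
  have hΩ : ∀ᶠ w in 𝓝 q, w ∈ Ω := hs.isOpen.mem_nhds hq
  have hcont : ∀ b : B, ContinuousAt (fun w => s w b) q := fun b =>
    ((hs.holo b).differentiableAt (hs.isOpen.mem_nhds hq)).continuousAt
  -- the bound on the whole ideal
  have key : ∀ f ∈ Ideal.span {b | ∃ m : Fin n → ℕ, N ≤ ∑ j, a j * m j ∧
      b = ∏ j, (G.y j - algebraMap ℂ B (s q (G.y j))) ^ m j},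
      ∃ C : ℝ, 0 ≤ C ∧ ∀ᶠ w in 𝓝 q, ‖s w f‖ ^ 2 ≤ C * δ w := by
    intro f hf
    induction hf using Submodule.span_induction with
    | mem f hf =>
      obtain ⟨m, hm, rfl⟩ := hf
      refine ⟨1, zero_le_one, ?_⟩
      have h1 : ∀ᶠ w in 𝓝 q, ∀ j, ‖w j - q j‖ < 1 := by
        rw [Filter.eventually_all]
        intro j
        have hc : ContinuousAt (fun w : Fin n → ℂ => ‖w j - q j‖) q :=
          (((continuous_apply j).sub continuous_const).norm).continuousAt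
        exact hc.eventually_lt continuousAt_const (by simp)
      filter_upwards [hΩ, h1] with w hw hw1
      have hp : ∀ j, s w (G.y j - algebraMap ℂ B (s q (G.y j))) = w j - q j := by
        intro j
        rw [map_sub, AlgHom.commutes]
        have e1 : s w (G.y j) = w j := congrFun (hs.proj w hw) j
        have e2 : s q (G.y j) = q j := congrFun (hs.proj q hq) j
        rw [e1, e2]
        rfl
      have h2 : ‖s w (∏ j, (G.y j - algebraMap ℂ B (s q (G.y j))) ^ m j)‖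
          = ∏ j, ‖w j - q j‖ ^ m j := by
        rw [map_prod, norm_prod]
        refine Finset.prod_congr rfl fun j _ => ?_
        rw [map_pow, hp j, norm_pow]
      rw [h2, one_mul]
      exact Van_aux_mono ha hN hm (fun j => norm_nonneg _) (fun j => (hw1 j).le)
    | zero =>
      refine ⟨0, le_refl _, Filter.Eventually.of_forall fun w => ?_⟩
      simp
    | add f g _ _ hf hg =>
      obtain ⟨C₁, hC₁, h1⟩ := hf
      obtain ⟨C₂, hC₂, h2⟩ := hg
      refine ⟨2 * (C₁ + C₂), by positivity, ?_⟩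
      filter_upwards [h1, h2] with w hw1 hw2
      rw [map_add]
      have h3 : ‖s w f + s w g‖ ≤ ‖s w f‖ + ‖s w g‖ := norm_add_le _ _
      have h4 : ‖s w f + s w g‖ ^ 2 ≤ (‖s w f‖ + ‖s w g‖) ^ 2 :=
        pow_le_pow_left₀ (norm_nonneg _) h3 2
      nlinarith [sq_nonneg (‖s w f‖ - ‖s w g‖)]
    | smul c f _ hf =>
      obtain ⟨C₁, hC₁, h1⟩ := hf
      refine ⟨(‖s q c‖ + 1) ^ 2 * C₁, by positivity, ?_⟩
      have h2 : ∀ᶠ w in 𝓝 q, ‖s w c‖ < ‖s q c‖ + 1 :=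
        (hcont c).norm.eventually_lt continuousAt_const (by simp)
      filter_upwards [h1, h2] with w hw1 hw2
      rw [smul_eq_mul, map_mul, norm_mul, mul_pow, mul_assoc]
      exact mul_le_mul (pow_le_pow_left₀ (norm_nonneg _) hw2.le 2) hw1 (by positivity)
        (by positivity)
  obtain ⟨C, hC, hbd⟩ := key _ hmem
  have hpos : 0 < ‖s q t₀‖ := norm_pos_iff.2 ht₀
  have hlow : ∀ᶠ w in 𝓝 q, ‖s q t₀‖ / 2 < ‖s w t₀‖ :=
    continuousAt_const.eventually_lt (hcont t₀).norm (by linarith)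
  set c₀ : ℝ := ‖s q t₀‖ / 2 with hc₀
  have hc₀0 : 0 < c₀ := by positivity
  have hfin : ∀ᶠ w in 𝓝 q, w ∈ Ω ∧ ‖s w F‖ ^ 2 ≤ (C / c₀ ^ 2 + 1) * δ w := by
    filter_upwards [hΩ, hbd, hlow] with w hw hw1 hw2
    refine ⟨hw, ?_⟩
    rw [map_mul, norm_mul, mul_pow] at hw1
    have h3 : c₀ ^ 2 * ‖s w F‖ ^ 2 ≤ C * δ w :=
      le_trans (mul_le_mul_of_nonneg_right (pow_le_pow_left₀ hc₀0.le hw2.le 2)
        (by positivity)) hw1
    have h4 : ‖s w F‖ ^ 2 ≤ C / c₀ ^ 2 * δ w := by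
      rw [div_mul_eq_mul_div, le_div_iff₀ (by positivity)]
      linarith
    nlinarith [hδ0 w]
  obtain ⟨t, ht, hball⟩ := Metric.eventually_nhds_iff.1 hfin
  refine ⟨C / c₀ ^ 2 + 1, t, by positivity, ht, fun w hw => ?_⟩
  apply hball
  rw [dist_pi_lt_iff ht]
  intro j
  rw [dist_eq_norm]
  exact hw j

end Pool.Agent.Odp3
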