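import Pool.Agent.Odp3.Alg.Cf

open scoped ContDiff Topology ENNReal NNReal WithZero
open Set MeasureTheory Filter MvPolynomial Pool.Agent.ODP

namespace Pool.Agent.Odp3

/-! ### Convergence of polynomials with bounded support -/

/-- `P ν → P'` along `l`: the coefficients converge and the supports are bounded. -/
def TendsP {n : ℕ} (l : Filter ℕ) (P : ℕ → MvPolynomial (Fin n) ℂ) (P' : MvPolynomial (Fin n) ℂ) :
    Prop :=
  (∃ Λ : Finset (Fin n →₀ ℕ), ∀ᶠ ν in l, (P ν).support ⊆ Λ) ∧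
    ∀ m, Tendsto (fun ν => (P ν).coeff m) l (nhds (P'.coeff m))

section TendsP

/-- the support of the limit. -/
theorem TendsP.support_subset {n : ℕ} {l : Filter ℕ} [l.NeBot] {P : ℕ → MvPolynomial (Fin n) ℂ}
    {P' : MvPolynomial (Fin n) ℂ} (h : TendsP l P P') {Λ : Finset (Fin n →₀ ℕ)}
    (hΛ : ∀ᶠ ν in l, (P ν).support ⊆ Λ) : P'.support ⊆ Λ := by
  intro m hm
  by_contra hmΛ
  have h0 : ∀ᶠ ν in l, (P ν).coeff m = 0 := by
    filter_upwards [hΛ] with ν h1
    by_contra h2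
    exact hmΛ (h1 (MvPolynomial.mem_support_iff.2 h2))
  have h1 : Tendsto (fun ν => (P ν).coeff m) l (nhds 0) :=
    tendsto_const_nhds.congr' (h0.mono fun ν hν => hν.symm)
  exact (MvPolynomial.mem_support_iff.1 hm) (tendsto_nhds_unique (h.2 m) h1)

variable {n : ℕ} {l : Filter ℕ} {P Q : ℕ → MvPolynomial (Fin n) ℂ}
  {P' Q' : MvPolynomial (Fin n) ℂ}

theorem tendsP_const (P' : MvPolynomial (Fin n) ℂ) : TendsP l (fun _ => P') P' :=
  ⟨⟨P'.support, Eventually.of_forall fun _ => subset_rfl⟩, fun _ => tendsto_const_nhds⟩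

theorem TendsP.add (h : TendsP l P P') (h' : TendsP l Q Q') :
    TendsP l (fun ν => P ν + Q ν) (P' + Q') := by
  classical
  obtain ⟨⟨Λ, hΛ⟩, hc⟩ := h
  obtain ⟨⟨Λ', hΛ'⟩, hc'⟩ := h'
  refine ⟨⟨Λ ∪ Λ', ?_⟩, fun m => ?_⟩
  · filter_upwards [hΛ, hΛ'] with ν h1 h2
    exact (MvPolynomial.support_add).trans (Finset.union_subset_union h1 h2)
  · simpa [MvPolynomial.coeff_add] using (hc m).add (hc' m)

theorem TendsP.mul (h : TendsP l P P') (h' : TendsP l Q Q') :
    TendsP l (fun ν => P ν * Q ν) (P' * Q') := by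
  classical
  obtain ⟨⟨Λ, hΛ⟩, hc⟩ := h
  obtain ⟨⟨Λ', hΛ'⟩, hc'⟩ := h'
  refine ⟨⟨Finset.image₂ (· + ·) Λ Λ', ?_⟩, fun m => ?_⟩
  · filter_upwards [hΛ, hΛ'] with ν h1 h2
    intro m hm
    have := MvPolynomial.support_mul (P ν) (Q ν) hm
    obtain ⟨a, ha, b, hb, rfl⟩ := Finset.mem_add.1 this
    exact Finset.mem_image₂_of_mem (h1 ha) (h2 hb)
  · simp only [MvPolynomial.coeff_mul]
    exact tendsto_finsetSum _ fun ab _ => (hc ab.1).mul (hc' ab.2)

theorem TendsP.sum {ι : Type*} (s : Finset ι) {P : ι → ℕ → MvPolynomial (Fin n) ℂ}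
    {P' : ι → MvPolynomial (Fin n) ℂ} (h : ∀ i ∈ s, TendsP l (P i) (P' i)) :
    TendsP l (fun ν => ∑ i ∈ s, P i ν) (∑ i ∈ s, P' i) := by
  classical
  induction s using Finset.induction_on with
  | empty => simpa using tendsP_const (l := l) (0 : MvPolynomial (Fin n) ℂ)
  | insert a s ha ih =>
    simp only [Finset.sum_insert ha]
    exact (h a (Finset.mem_insert_self a s)).add
      (ih fun i hi => h i (Finset.mem_insert_of_mem hi))

theorem tendsP_C {c : ℕ → ℂ} {c' : ℂ} (h : Tendsto c l (nhds c')) :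
    TendsP l (fun ν => (C (c ν) : MvPolynomial (Fin n) ℂ)) (C c') := by
  classical
  refine ⟨⟨{0}, Eventually.of_forall fun ν => ?_⟩, fun m => ?_⟩
  · change (C (c ν) : MvPolynomial (Fin n) ℂ).support ⊆ {0}
    rw [MvPolynomial.C_apply]
    exact MvPolynomial.support_monomial_subset
  · simp only [MvPolynomial.coeff_C]
    split_ifs
    · exact h
    · exact tendsto_const_nhds

theorem TendsP.eval {w : ℕ → Fin n → ℂ} {w' : Fin n → ℂ} (h : TendsP l P P')
    (hw : Tendsto w l (nhds w')) [l.NeBot] :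
    Tendsto (fun ν => MvPolynomial.eval (w ν) (P ν)) l (nhds (MvPolynomial.eval w' P')) := by
  classical
  obtain ⟨⟨Λ, hΛ⟩, hc⟩ := h
  have hsum : ∀ (p : MvPolynomial (Fin n) ℂ) (v : Fin n → ℂ) (S : Finset (Fin n →₀ ℕ)),
      p.support ⊆ S → MvPolynomial.eval v p = ∑ m ∈ S, p.coeff m * ∏ j, v j ^ m j := by
    intro p v S hS
    rw [MvPolynomial.eval_eq']
    refine Finset.sum_subset hS fun m _ hm => ?_
    rw [MvPolynomial.notMem_support_iff.1 hm, zero_mul]
  have hP' : P'.support ⊆ Λ := by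
    intro m hm
    by_contra hmΛ
    have h0 : ∀ᶠ ν in l, (P ν).coeff m = 0 := by
      filter_upwards [hΛ] with ν h1
      by_contra h2
      exact hmΛ (h1 (MvPolynomial.mem_support_iff.2 h2))
    have h1 : Tendsto (fun ν => (P ν).coeff m) l (nhds 0) :=
      tendsto_const_nhds.congr' (h0.mono fun ν hν => hν.symm)
    exact (MvPolynomial.mem_support_iff.1 hm) (tendsto_nhds_unique (hc m) h1)
  rw [hsum P' w' Λ hP']
  have h2 : Tendsto (fun ν => ∑ m ∈ Λ, (P ν).coeff m * ∏ j, w ν j ^ m j) l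
      (nhds (∑ m ∈ Λ, P'.coeff m * ∏ j, w' j ^ m j)) := by
    refine tendsto_finsetSum _ fun m _ => (hc m).mul ?_
    refine tendsto_finsetProd _ fun j _ => ?_
    exact ((tendsto_pi_nhds.1 hw j).pow _)
  refine h2.congr' ?_
  filter_upwards [hΛ] with ν h1
  exact (hsum _ _ _ h1).symm

end TendsP

/-! ### The coordinates `cf` -/

section Cf

variable {n d : ℕ} {B : Type} [CommRing B] [Algebra ℂ B] (G : Germ n d B)

theorem tr_zero' : G.tr 0 = 0 := by
  have h := G.tr_add 0 0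
  rw [add_zero] at h
  exact left_eq_add.1 h

theorem tr_sum' {ι : Type*} (s : Finset ι) (f : ι → B) :
    G.tr (∑ i ∈ s, f i) = ∑ i ∈ s, G.tr (f i) := by
  classical
  induction s using Finset.induction_on with
  | empty => simpa using tr_zero' G
  | insert a s ha ih => rw [Finset.sum_insert ha, Finset.sum_insert ha, G.tr_add, ih]

theorem cf_spec' (b : B) : aeval G.y G.D * b = ∑ i, aeval G.y (G.cf b i) * G.e i := G.spec b

theorem cf_add' (b c : B) : G.cf (b + c) = G.cf b + G.cf c := by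
  funext i
  simp only [Germ.cf, Pi.add_apply, mul_add, G.tr_add]

theorem cf_aeval_mul (P : MvPolynomial (Fin n) ℂ) (b : B) :
    G.cf (aeval G.y P * b) = fun i => P * G.cf b i := by
  funext i
  simp only [Germ.cf]
  rw [mul_left_comm, G.tr_mul]

theorem cf_algebraMap_mul (c : ℂ) (b : B) :
    G.cf (algebraMap ℂ B c * b) = fun i => C c * G.cf b i := by
  have := cf_aeval_mul G (C c) b
  rwa [MvPolynomial.aeval_C] at this

theorem cf_sum' {ι : Type*} (s : Finset ι) (f : ι → B) :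
    G.cf (∑ i ∈ s, f i) = ∑ i ∈ s, G.cf (f i) := by
  funext i
  simp only [Germ.cf, Finset.sum_apply, Finset.mul_sum, tr_sum']

theorem apply_aeval (χ : Pt B) (P : MvPolynomial (Fin n) ℂ) :
    χ (aeval G.y P) = MvPolynomial.eval (proj G.y χ) P := by
  have h := MvPolynomial.comp_aeval_apply (f := G.y) χ P
  exact h.symm ▸ rfl

/-- The values of `b` and the coordinates of `D b`. -/
theorem apply_eq_sum (χ : Pt B) (b : B) :
    MvPolynomial.eval (proj G.y χ) G.D * χ b =
      ∑ i, MvPolynomial.eval (proj G.y χ) (G.cf b i) * χ (G.e i) := by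
  have h := congrArg χ (cf_spec' G b)
  rw [map_mul, map_sum, apply_aeval] at h
  rw [h]
  refine Finset.sum_congr rfl fun i _ => ?_
  rw [map_mul, apply_aeval]

theorem aeval_ne_zero {P : MvPolynomial (Fin n) ℂ} (hP : P ≠ 0) : aeval G.y P ≠ 0 := by
  intro h
  exact hP (G.inj (by rw [h, map_zero]))

theorem cf_injective [IsDomain B] {b c : B} (h : G.cf b = G.cf c) : b = c := by
  have h1 : aeval G.y G.D * b = aeval G.y G.D * c := by
    rw [cf_spec' G b, cf_spec' G c, h]
  exact mul_left_cancel₀ (aeval_ne_zero G G.D_ne) h1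

end Cf

/-! ### Convergence in `B` -/

section TendsB

variable {n d : ℕ} {B : Type} [CommRing B] [Algebra ℂ B] {G : Germ n d B}

/-- Convergence in `B` with an arbitrary finite index type. -/
theorem tendsB_of_fintype {ι : Type*} [Fintype ι] {F : ℕ → B} {F' : B} (g : ι → B)
    (c : ℕ → ι → ℂ) (c' : ι → ℂ)
    (h1 : ∀ᶠ ν in (hyperfilter ℕ : Filter ℕ), F ν = ∑ i, algebraMap ℂ B (c ν i) * g i)
    (h2 : ∀ i, Tendsto (fun ν => c ν i) (hyperfilter ℕ : Filter ℕ) (nhds (c' i)))
    (h3 : F' = ∑ i, algebraMap ℂ B (c' i) * g i) : TendsB G F F' := by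
  classical
  let φ := Fintype.equivFin ι
  refine ⟨Fintype.card ι, fun i => g (φ.symm i), fun ν i => c ν (φ.symm i),
    fun i => c' (φ.symm i), ?_, fun i => h2 _, ?_⟩
  · filter_upwards [h1] with ν hν
    rw [hν]
    exact (φ.symm.sum_comp fun i => algebraMap ℂ B (c ν i) * g i).symm
  · rw [h3]
    exact (φ.symm.sum_comp fun i => algebraMap ℂ B (c' i) * g i).symm

theorem tendsB_const (F' : B) : TendsB G (fun _ => F') F' :=
  tendsB_of_fintype (ι := Unit) (fun _ => F') (fun _ _ => 1) (fun _ => 1)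
    (Eventually.of_forall fun _ => by simp) (fun _ => tendsto_const_nhds) (by simp)

theorem TendsB.add {F H : ℕ → B} {F' H' : B} (h : TendsB G F F') (h' : TendsB G H H') :
    TendsB G (fun ν => F ν + H ν) (F' + H') := by
  obtain ⟨k, g, c, c', h1, h2, h3⟩ := h
  obtain ⟨l, g1, a, a', k1, k2, k3⟩ := h'
  refine tendsB_of_fintype (ι := Fin k ⊕ Fin l) (Sum.elim g g1) (fun ν => Sum.elim (c ν) (a ν))
    (Sum.elim c' a') ?_ ?_ ?_
  · filter_upwards [h1, k1] with ν u v
    simp [Fintype.sum_sum_type, u, v]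
  · rintro (i | i)
    · exact h2 i
    · exact k2 i
  · simp [Fintype.sum_sum_type, h3, k3]

theorem TendsB.mul {F H : ℕ → B} {F' H' : B} (h : TendsB G F F') (h' : TendsB G H H') :
    TendsB G (fun ν => F ν * H ν) (F' * H') := by
  obtain ⟨k, g, c, c', h1, h2, h3⟩ := h
  obtain ⟨l, g1, a, a', k1, k2, k3⟩ := h'
  refine tendsB_of_fintype (ι := Fin k × Fin l) (fun i => g i.1 * g1 i.2)
    (fun ν i => c ν i.1 * a ν i.2) (fun i => c' i.1 * a' i.2) ?_ ?_ ?_
  · filter_upwards [h1, k1] with ν u v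
    rw [u, v, Finset.sum_mul_sum, Fintype.sum_prod_type]
    refine Finset.sum_congr rfl fun i _ => Finset.sum_congr rfl fun j _ => ?_
    rw [map_mul]; ring
  · exact fun i => (h2 i.1).mul (k2 i.2)
  · rw [h3, k3, Finset.sum_mul_sum, Fintype.sum_prod_type]
    refine Finset.sum_congr rfl fun i _ => Finset.sum_congr rfl fun j _ => ?_
    rw [map_mul]; ring

theorem TendsB.pow {F : ℕ → B} {F' : B} (h : TendsB G F F') (k : ℕ) :
    TendsB G (fun ν => F ν ^ k) (F' ^ k) := by
  induction k with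
  | zero => simpa using tendsB_const (G := G) (1 : B)
  | succ k ih =>
    simp only [pow_succ]
    exact ih.mul h

theorem TendsB.prod {ι : Type*} (s : Finset ι) {F : ι → ℕ → B} {F' : ι → B}
    (h : ∀ i ∈ s, TendsB G (F i) (F' i)) :
    TendsB G (fun ν => ∏ i ∈ s, F i ν) (∏ i ∈ s, F' i) := by
  classical
  induction s using Finset.induction_on with
  | empty => simpa using tendsB_const (G := G) (1 : B)
  | insert a s ha ih =>
    simp only [Finset.prod_insert ha]
    exact (h a (Finset.mem_insert_self a s)).mul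
      (ih fun i hi => h i (Finset.mem_insert_of_mem hi))

theorem TendsB.sum {ι : Type*} (s : Finset ι) {F : ι → ℕ → B} {F' : ι → B}
    (h : ∀ i ∈ s, TendsB G (F i) (F' i)) :
    TendsB G (fun ν => ∑ i ∈ s, F i ν) (∑ i ∈ s, F' i) := by
  classical
  induction s using Finset.induction_on with
  | empty => simpa using tendsB_const (G := G) (0 : B)
  | insert a s ha ih =>
    simp only [Finset.sum_insert ha]
    exact (h a (Finset.mem_insert_self a s)).add
      (ih fun i hi => h i (Finset.mem_insert_of_mem hi))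

theorem tendsB_algebraMap {c : ℕ → ℂ} {c' : ℂ}
    (hc : Tendsto c (hyperfilter ℕ : Filter ℕ) (nhds c')) :
    TendsB G (fun ν => algebraMap ℂ B (c ν)) (algebraMap ℂ B c') :=
  tendsB_of_fintype (ι := Unit) (fun _ => 1) (fun ν _ => c ν) (fun _ => c')
    (Eventually.of_forall fun _ => by simp) (fun _ => hc) (by simp)

theorem TendsB.algebraMap_mul {c : ℕ → ℂ} {c' : ℂ} {F : ℕ → B} {F' : B}
    (hc : Tendsto c (hyperfilter ℕ : Filter ℕ) (nhds c')) (h : TendsB G F F') :
    TendsB G (fun ν => algebraMap ℂ B (c ν) * F ν) (algebraMap ℂ B c' * F') :=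
  (tendsB_algebraMap hc).mul h

theorem TendsB.congr {F H : ℕ → B} {F' : B} (h : TendsB G F F')
    (he : ∀ᶠ ν in (hyperfilter ℕ : Filter ℕ), F ν = H ν) : TendsB G H F' := by
  obtain ⟨k, g, c, c', h1, h2, h3⟩ := h
  refine ⟨k, g, c, c', ?_, h2, h3⟩
  filter_upwards [h1, he] with ν a b
  rw [← b, a]

theorem TendsB.congr' {F H : ℕ → B} {F' : B} (h : TendsB G F F')
    (h' : ∀ᶠ ν in (hyperfilter ℕ : Filter ℕ), F ν = H ν) : TendsB G H F' := by
  obtain ⟨k, g, c, c', h1, h2, h3⟩ := h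
  refine ⟨k, g, c, c', ?_, h2, h3⟩
  filter_upwards [h1, h'] with ν u v
  rw [← v, u]

theorem tendsB_sub_algebraMap {c : ℕ → ℂ} (b : B)
    (hc : Tendsto c (hyperfilter ℕ : Filter ℕ) (nhds 0)) :
    TendsB G (fun ν => b - algebraMap ℂ B (c ν)) b := by
  have h1 := (tendsB_const (G := G) b).add
    (tendsB_algebraMap (G := G) (c := fun ν => -c ν) (c' := 0) (by simpa using hc.neg))
  simpa [sub_eq_add_neg] using h1

/-- the values of a convergent sequence of functions at a convergent sequence of points. -/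
theorem TendsB.tendsto_apply {x : Pt B} {p : ℕ → Pt B}
    (hpt : ∀ b, Tendsto (fun ν => p ν b) (hyperfilter ℕ : Filter ℕ) (nhds (x b)))
    {F : ℕ → B} {F' : B} (h : TendsB G F F') :
    Tendsto (fun ν => p ν (F ν)) (hyperfilter ℕ : Filter ℕ) (nhds (x F')) := by
  obtain ⟨k, g, c, c', h1, h2, h3⟩ := h
  have h4 : Tendsto (fun ν => ∑ i, c ν i * p ν (g i)) (hyperfilter ℕ : Filter ℕ)
      (nhds (∑ i, c' i * x (g i))) :=
    tendsto_finsetSum _ fun i _ => (h2 i).mul (hpt _)
  have h5 : x F' = ∑ i, c' i * x (g i) := by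
    rw [h3, map_sum]
    refine Finset.sum_congr rfl fun i _ => ?_
    rw [map_mul, AlgHom.commutes]
    rfl
  rw [h5]
  refine h4.congr' ?_
  filter_upwards [h1] with ν hν
  rw [hν, map_sum]
  refine Finset.sum_congr rfl fun i _ => ?_
  rw [map_mul, AlgHom.commutes]
  rfl

theorem TendsB.tendsP {F : ℕ → B} {F' : B} (h : TendsB G F F') (i : Fin d) :
    TendsP (hyperfilter ℕ : Filter ℕ) (fun ν => G.cf (F ν) i) (G.cf F' i) := by
  classical
  obtain ⟨k, g, c, c', h1, h2, h3⟩ := h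
  have h4 : TendsP (hyperfilter ℕ : Filter ℕ) (fun ν => ∑ j, C (c ν j) * G.cf (g j) i)
      (∑ j, C (c' j) * G.cf (g j) i) :=
    TendsP.sum _ fun j _ => (tendsP_C (h2 j)).mul (tendsP_const _)
  have h5 : ∀ a : Fin k → ℂ, G.cf (∑ j, algebraMap ℂ B (a j) * g j) i =
      ∑ j, C (a j) * G.cf (g j) i := by
    intro a
    rw [cf_sum', Finset.sum_apply]
    exact Finset.sum_congr rfl fun j _ => congrFun (cf_algebraMap_mul G _ _) i
  rw [h3, h5]
  obtain ⟨⟨Λ, hΛ⟩, hc⟩ := h4
  refine ⟨⟨Λ, ?_⟩, fun m => (hc m).congr' ?_⟩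
  · filter_upwards [hΛ, h1] with ν u v
    rw [v, h5]
    exact u
  · filter_upwards [h1] with ν v
    rw [v, h5]

/-- The elements of `B` such that the coordinates have their supports in `Λ`. -/
def suppSub (G : Germ n d B) (Λ : Finset (Fin n →₀ ℕ)) : Submodule ℂ B where
  carrier := {b | ∀ i, (G.cf b i).support ⊆ Λ}
  zero_mem' := by
    intro i
    have h : G.cf 0 i = 0 := by rw [Germ.cf, mul_zero, tr_zero']
    rw [h]
    simp
  add_mem' := by
    classical
    intro a b ha hb i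
    rw [cf_add', Pi.add_apply]
    exact (MvPolynomial.support_add).trans (Finset.union_subset (ha i) (hb i))
  smul_mem' := by
    intro c b hb i m hm
    rw [Algebra.smul_def, cf_algebraMap_mul] at hm
    refine hb i ?_
    rw [MvPolynomial.mem_support_iff] at hm ⊢
    intro h0
    exact hm (by rw [MvPolynomial.coeff_C_mul, h0, mul_zero])

/-- The coefficients of the coordinates. -/
def suppCoeff (G : Germ n d B) (Λ : Finset (Fin n →₀ ℕ)) :
    suppSub G Λ →ₗ[ℂ] (Fin d × Λ → ℂ) where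
  toFun b := fun i => (G.cf (b : B) i.1).coeff i.2
  map_add' a b := by
    funext i
    simp [cf_add']
  map_smul' c b := by
    funext i
    simp [Algebra.smul_def, cf_algebraMap_mul, MvPolynomial.coeff_C_mul]

theorem suppCoeff_injective [IsDomain B] (G : Germ n d B) (Λ : Finset (Fin n →₀ ℕ)) :
    Function.Injective (suppCoeff G Λ) := by
  intro a b hab
  refine Subtype.ext (cf_injective G ?_)
  funext i
  ext m
  by_cases hm : m ∈ Λ
  · exact congrFun hab (i, ⟨m, hm⟩)
  · rw [MvPolynomial.notMem_support_iff.1 fun h => hm (a.2 i h),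
      MvPolynomial.notMem_support_iff.1 fun h => hm (b.2 i h)]

/-- Elements with the supports of the coordinates in `Λ` are fixed combinations of the
coefficients of their coordinates. -/
theorem exists_comb [IsDomain B] (G : Germ n d B) (Λ : Finset (Fin n →₀ ℕ)) :
    ∃ g : Fin d × Λ → B, ∀ b : B, (∀ i, (G.cf b i).support ⊆ Λ) →
      b = ∑ i : Fin d × Λ, algebraMap ℂ B ((G.cf b i.1).coeff i.2) * g i := by
  classical
  obtain ⟨L, hL⟩ := (suppCoeff G Λ).exists_leftInverse_of_injective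
    (LinearMap.ker_eq_bot.2 (suppCoeff_injective G Λ))
  refine ⟨fun i => (L (Pi.single i 1) : B), fun b hb => ?_⟩
  have h1 : L (suppCoeff G Λ ⟨b, hb⟩) = ⟨b, hb⟩ := LinearMap.congr_fun hL _
  have h2 : suppCoeff G Λ ⟨b, hb⟩ =
      ∑ i : Fin d × Λ, (G.cf b i.1).coeff i.2 • (Pi.single i 1 : Fin d × Λ → ℂ) := by
    funext j
    rw [Finset.sum_apply, Finset.sum_eq_single j]
    · simp [suppCoeff]
    · intro i _ hi
      simp [Ne.symm hi]
    · intro h
      exact absurd (Finset.mem_univ j) h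
  rw [h2, map_sum] at h1
  have h3 : b = ((∑ i : Fin d × Λ, L ((G.cf b i.1).coeff i.2 •
      (Pi.single i 1 : Fin d × Λ → ℂ)) : suppSub G Λ) : B) := (congrArg Subtype.val h1).symm
  refine h3.trans ?_
  rw [Submodule.coe_sum]
  refine Finset.sum_congr rfl fun i _ => ?_
  rw [map_smul, Submodule.coe_smul, Algebra.smul_def]

theorem tendsB_iff [IsDomain B] {F : ℕ → B} {F' : B} : TendsB G F F' ↔
    ∀ i, TendsP (hyperfilter ℕ : Filter ℕ) (fun ν => G.cf (F ν) i) (G.cf F' i) := by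
  classical
  refine ⟨fun h i => h.tendsP i, fun h => ?_⟩
  choose Λ hΛ using fun i => (h i).1
  obtain ⟨g, hg⟩ := exists_comb G (Finset.univ.biUnion Λ)
  have h1 : ∀ᶠ ν in (hyperfilter ℕ : Filter ℕ), ∀ i,
      (G.cf (F ν) i).support ⊆ Finset.univ.biUnion Λ := by
    filter_upwards [eventually_all.2 hΛ] with ν h1 i
    exact (h1 i).trans (Finset.subset_biUnion_of_mem Λ (Finset.mem_univ i))
  refine tendsB_of_fintype g (fun ν i => (G.cf (F ν) i.1).coeff i.2)
    (fun i => (G.cf F' i.1).coeff i.2) ?_ (fun i => (h i.1).2 _) ?_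
  · filter_upwards [h1] with ν hν
    exact hg _ hν
  · exact hg _ fun i => (h i).support_subset (h1.mono fun ν hν => hν i)

end TendsB

/-! ### The vanishing order -/

section VanAt

variable {n d : ℕ} {B : Type} [CommRing B] [Algebra ℂ B] {G : Germ n d B}

/-- The ideal generated by the monomials of weighted degree `≥ N` in `y - χ(y)`. -/
def WW (G : Germ n d B) (a : Fin n → ℕ) (N : ℕ) (χ : Pt B) : Ideal B :=
  Ideal.span {b | ∃ m : Fin n → ℕ, N ≤ ∑ j, a j * m j ∧
    b = ∏ j, (G.y j - algebraMap ℂ B (χ (G.y j))) ^ m j}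

theorem vanAt_iff {a : Fin n → ℕ} {N : ℕ} {χ : Pt B} {F : B} :
    VanAt G a N χ F ↔ ∃ t : B, χ t ≠ 0 ∧ t * F ∈ WW G a N χ := Iff.rfl

theorem WW_mul_le (a : Fin n → ℕ) (N M : ℕ) (χ : Pt B) :
    WW G a N χ * WW G a M χ ≤ WW G a (N + M) χ := by
  rw [WW, WW, Ideal.span_mul_span', Ideal.span_le]
  rintro _ ⟨u, ⟨m, hm, rfl⟩, v, ⟨m', hm', rfl⟩, rfl⟩
  refine Ideal.subset_span ⟨m + m', ?_, ?_⟩
  · simp only [Pi.add_apply, mul_add, Finset.sum_add_distrib]
    exact Nat.add_le_add hm hm'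
  · simp only [Pi.add_apply, pow_add, Finset.prod_mul_distrib]

theorem WW_anti (a : Fin n → ℕ) {N M : ℕ} (h : N ≤ M) (χ : Pt B) : WW G a M χ ≤ WW G a N χ :=
  Ideal.span_mono fun _ ⟨m, hm, hb⟩ => ⟨m, h.trans hm, hb⟩

theorem vanAt_zero (a : Fin n → ℕ) (N : ℕ) (χ : Pt B) : VanAt G a N χ 0 :=
  ⟨1, by simp, by simp⟩

theorem VanAt.add {a : Fin n → ℕ} {N : ℕ} {χ : Pt B} {F H : B} (h : VanAt G a N χ F)
    (h' : VanAt G a N χ H) : VanAt G a N χ (F + H) := by
  obtain ⟨t, ht, hF⟩ := h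
  obtain ⟨s, hs, hH⟩ := h'
  refine ⟨t * s, by simpa using ⟨ht, hs⟩, ?_⟩
  have : t * s * (F + H) = s * (t * F) + t * (s * H) := by ring
  rw [this]
  exact Ideal.add_mem _ (Ideal.mul_mem_left _ _ hF) (Ideal.mul_mem_left _ _ hH)

theorem VanAt.mul {a : Fin n → ℕ} {N M : ℕ} {χ : Pt B} {F H : B} (h : VanAt G a N χ F)
    (h' : VanAt G a M χ H) : VanAt G a (N + M) χ (F * H) := by
  obtain ⟨t, ht, hF⟩ := h
  obtain ⟨s, hs, hH⟩ := h'
  refine ⟨t * s, by simpa using ⟨ht, hs⟩, ?_⟩
  have : t * s * (F * H) = (t * F) * (s * H) := by ring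
  rw [this]
  exact WW_mul_le a N M χ (Ideal.mul_mem_mul hF hH)

theorem VanAt.mul_left {a : Fin n → ℕ} {N : ℕ} {χ : Pt B} {F : B} (c : B)
    (h : VanAt G a N χ F) : VanAt G a N χ (c * F) := by
  obtain ⟨t, ht, hF⟩ := h
  refine ⟨t, ht, ?_⟩
  have : t * (c * F) = c * (t * F) := by ring
  rw [this]
  exact Ideal.mul_mem_left _ _ hF

theorem VanAt.anti {a : Fin n → ℕ} {N M : ℕ} (hNM : N ≤ M) {χ : Pt B} {F : B}
    (h : VanAt G a M χ F) : VanAt G a N χ F := by
  obtain ⟨t, ht, hF⟩ := h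
  exact ⟨t, ht, WW_anti a hNM χ hF⟩

theorem vanAt_prod (a : Fin n → ℕ) {N : ℕ} {m : Fin n → ℕ} (h : N ≤ ∑ j, a j * m j) (χ : Pt B)
    {q : Fin n → ℂ} (hq : proj G.y χ = q) :
    VanAt G a N χ (∏ j, (G.y j - algebraMap ℂ B (q j)) ^ m j) := by
  subst hq
  refine ⟨1, by simp, ?_⟩
  rw [one_mul]
  exact Ideal.subset_span ⟨m, h, rfl⟩

theorem WW_one_le {a : Fin n → ℕ} {c M N : ℕ} (hc : ∀ j, c ≤ a j) (h : N ≤ c * M) (χ : Pt B) :
    WW G (one n) M χ ≤ WW G a N χ := by
  refine Ideal.span_mono ?_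
  rintro _ ⟨m, hm, rfl⟩
  refine ⟨m, ?_, rfl⟩
  calc N ≤ c * M := h
    _ ≤ c * ∑ j, m j := by
        refine Nat.mul_le_mul_left _ ?_
        simpa [one] using hm
    _ = ∑ j, c * m j := by rw [Finset.mul_sum]
    _ ≤ ∑ j, a j * m j := Finset.sum_le_sum fun j _ => Nat.mul_le_mul_right _ (hc j)

theorem WW_le_ker {a : Fin n → ℕ} {N : ℕ} (hN : 1 ≤ N) (χ : Pt B) :
    WW G a N χ ≤ RingHom.ker χ := by
  rw [WW, Ideal.span_le]
  rintro _ ⟨m, hm, rfl⟩
  have : ∃ j, m j ≠ 0 := by
    by_contra hcon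
    push Not at hcon
    have : ∑ j, a j * m j = 0 := Finset.sum_eq_zero fun j _ => by simp [hcon j]
    omega
  obtain ⟨j, hj⟩ := this
  change χ _ = 0
  rw [map_prod]
  refine Finset.prod_eq_zero (Finset.mem_univ j) ?_
  rw [map_pow, map_sub, AlgHom.commutes]
  simp [hj]

theorem VanAt.apply_eq_zero {a : Fin n → ℕ} {N : ℕ} (hN : 1 ≤ N) {χ : Pt B} {F : B}
    (h : VanAt G a N χ F) : χ F = 0 := by
  obtain ⟨t, ht, hF⟩ := h
  have h1 : χ (t * F) = 0 := WW_le_ker hN χ hF
  rw [map_mul] at h1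
  exact (mul_eq_zero.1 h1).resolve_left ht

/-- the ideal `(y - χ(y))`. -/
def PP (G : Germ n d B) (χ : Pt B) : Ideal B :=
  Ideal.span (Set.range fun j => G.y j - algebraMap ℂ B (χ (G.y j)))

theorem PP_pow_le {a : Fin n → ℕ} (ha : ∀ j, 1 ≤ a j) (N : ℕ) (χ : Pt B) :
    PP G χ ^ N ≤ WW G a N χ := by
  classical
  have h1 : PP G χ ≤ WW G a 1 χ := by
    rw [PP, Ideal.span_le]
    rintro _ ⟨j, rfl⟩
    refine Ideal.subset_span ⟨Pi.single j 1, ?_, ?_⟩
    · have : ∑ k, a k * (Pi.single j 1 : Fin n → ℕ) k = a j := by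
        rw [Finset.sum_eq_single j]
        · simp
        · intro k _ hk; simp [hk]
        · intro h; exact absurd (Finset.mem_univ j) h
      rw [this]; exact ha j
    · rw [Finset.prod_eq_single j]
      · simp
      · intro k _ hk; simp [hk]
      · intro h; exact absurd (Finset.mem_univ j) h
  induction N with
  | zero =>
    have h0 : WW G a 0 χ = ⊤ :=
      (Ideal.eq_top_iff_one _).2 (Ideal.subset_span ⟨0, by simp, by simp⟩)
    rw [h0]
    exact le_top
  | succ N ih =>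
    rw [pow_succ]
    exact (Ideal.mul_mono ih h1).trans (WW_mul_le a N 1 χ)

end VanAt

/-! ### The fibre over a point outside the discriminant -/

section Fibre

variable {n d : ℕ} {B : Type} [CommRing B] [IsDomain B] [Algebra ℂ B]

omit [IsDomain B] in
theorem d_pos (G : Germ n d B) : 0 < d := by
  rcases Nat.eq_zero_or_pos d with h | h
  · subst h
    have h1 := G.spec 1
    rw [Finset.univ_eq_empty, Finset.sum_empty, mul_one] at h1
    exact absurd h1 (aeval_ne_zero G G.D_ne)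
  · exact h

variable (G : Germ n d B)

omit [IsDomain B] in
theorem fibre_finite {w : Fin n → ℂ} (hw : MvPolynomial.eval w G.D ≠ 0) :
    {χ : Pt B | proj G.y χ = w}.Finite :=
  Set.finite_of_ncard_ne_zero (by rw [G.card w hw]; exact (d_pos G).ne')

omit [IsDomain B] in
/-- A function vanishing at all the points over `w` has all coordinates vanishing at `w`. -/
theorem eval_cf_eq_zero {w : Fin n → ℂ} (hw : MvPolynomial.eval w G.D ≠ 0) {f : B}
    (hf : ∀ χ : Pt B, proj G.y χ = w → χ f = 0) (i : Fin d) :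
    MvPolynomial.eval w (G.cf f i) = 0 := by
  classical
  have h1 := G.tr_pt w hw (fibre_finite G hw).toFinset (fun χ => by simp) (G.du i * f)
  rw [Germ.cf, ← h1]
  refine Finset.sum_eq_zero fun χ hχ => ?_
  rw [map_mul, hf χ (by simpa using hχ), mul_zero]

omit [IsDomain B] in
/-- A polynomial vanishing at `w` is in the ideal generated by the `X_j - w_j`. -/
theorem aeval_mem_PP {χ : Pt B} {P : MvPolynomial (Fin n) ℂ}
    (hP : MvPolynomial.eval (proj G.y χ) P = 0) : aeval G.y P ∈ PP G χ := by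
  have key : ∀ P : MvPolynomial (Fin n) ℂ,
      aeval G.y P - algebraMap ℂ B (MvPolynomial.eval (proj G.y χ) P) ∈ PP G χ := by
    intro P
    induction P using MvPolynomial.induction_on with
    | C c => simp
    | add P Q hP hQ =>
      rw [map_add, map_add, map_add]
      have := Ideal.add_mem _ hP hQ
      convert this using 1
      ring
    | mul_X P j hP =>
      rw [map_mul, map_mul, map_mul, MvPolynomial.aeval_X, MvPolynomial.eval_X]
      have h1 : G.y j - algebraMap ℂ B (χ (G.y j)) ∈ PP G χ := Ideal.subset_span ⟨j, rfl⟩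
      have h2 := Ideal.add_mem _ (Ideal.mul_mem_left _ (aeval G.y P) h1)
        (Ideal.mul_mem_right (algebraMap ℂ B (χ (G.y j))) _ hP)
      convert h2 using 1
      simp only [proj]
      ring
  simpa [hP] using key P

omit [IsDomain B] in
/-- a point outside the discriminant is a reduced isolated point of its fibre. -/
theorem exists_sep_point {χ : Pt B} (hD : MvPolynomial.eval (proj G.y χ) G.D ≠ 0) :
    ∃ t : B, χ t ≠ 0 ∧ ∀ b : B, χ b = 0 → t * b ∈ PP G χ := by
  classical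
  refine ⟨aeval G.y G.D * ∑ i, algebraMap ℂ B (χ (G.e i)) * G.du i, ?_, fun b hb => ?_⟩
  · rw [map_mul, apply_aeval]
    refine mul_ne_zero hD ?_
    have h1 := (G.du_spec _ hD χ χ rfl rfl).1 rfl
    have h2 : χ (∑ i, algebraMap ℂ B (χ (G.e i)) * G.du i) =
        ∑ i, χ (G.du i) * χ (G.e i) := by
      rw [map_sum]
      refine Finset.sum_congr rfl fun i _ => ?_
      rw [map_mul, AlgHom.commutes, mul_comm]
      rfl
    rw [h2, h1]
    exact hD
  · set t := ∑ i, algebraMap ℂ B (χ (G.e i)) * G.du i with ht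
    have h3 : ∀ χ' : Pt B, proj G.y χ' = proj G.y χ → χ' (t * b) = 0 := by
      intro χ' hχ'
      by_cases hc : χ' = χ
      · subst hc
        rw [map_mul, hb, mul_zero]
      · have h4 := (G.du_spec _ hD χ' χ hχ' rfl).2 hc
        have h5 : χ' t = ∑ i, χ' (G.du i) * χ (G.e i) := by
          rw [ht, map_sum]
          refine Finset.sum_congr rfl fun i _ => ?_
          rw [map_mul, AlgHom.commutes, mul_comm]
          rfl
        rw [map_mul, h5, h4, zero_mul]
    rw [mul_assoc, cf_spec' G (t * b)]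
    refine Ideal.sum_mem _ fun i _ => Ideal.mul_mem_right _ _ ?_
    exact aeval_mem_PP G (eval_cf_eq_zero G hD h3 i)

omit [IsDomain B] in
theorem vanAt_pow {a : Fin n → ℕ} (ha : ∀ j, 1 ≤ a j) (N : ℕ) {χ : Pt B}
    (hD : MvPolynomial.eval (proj G.y χ) G.D ≠ 0) (b : B) :
    VanAt G a N χ ((b - algebraMap ℂ B (χ b)) ^ N) := by
  obtain ⟨t, ht, h⟩ := exists_sep_point G hD
  refine ⟨t ^ N, by rw [map_pow]; exact pow_ne_zero _ ht, ?_⟩
  rw [← mul_pow]
  have h1 : χ (b - algebraMap ℂ B (χ b)) = 0 := by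
    rw [map_sub, AlgHom.commutes]
    exact sub_self _
  exact PP_pow_le ha N χ (Ideal.pow_mem_pow (h _ h1) N)

omit [IsDomain B] in
/-- an element which vanishes on the fibre of `χ` is in `(y - χ(y))`. -/
theorem mem_PP_of_fibre {χ : Pt B} (hD : MvPolynomial.eval (proj G.y χ) G.D ≠ 0) {b : B}
    (hb : ∀ χ' : Pt B, proj G.y χ' = proj G.y χ → χ' b = 0) : b ∈ PP G χ := by
  set c : ℂ := MvPolynomial.eval (proj G.y χ) G.D with hc
  have h1 : aeval G.y G.D * b ∈ PP G χ := by
    rw [G.cf_spec b]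
    refine Ideal.sum_mem _ fun i _ => Ideal.mul_mem_right _ _ ?_
    exact aeval_mem_PP G (eval_cf_eq_zero G hD hb i)
  have h2 : aeval G.y (G.D - C c) * b ∈ PP G χ := by
    refine Ideal.mul_mem_right _ _ (aeval_mem_PP G ?_)
    rw [map_sub, eval_C, sub_eq_zero]
  have h3 : b = algebraMap ℂ B c⁻¹ * (aeval G.y G.D * b - aeval G.y (G.D - C c) * b) := by
    have h4 : aeval G.y G.D * b - aeval G.y (G.D - C c) * b = algebraMap ℂ B c * b := by
      rw [map_sub, aeval_C]
      ring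
    rw [h4, ← mul_assoc, ← map_mul, inv_mul_cancel₀ hD, map_one, one_mul]
  rw [h3]
  exact Ideal.mul_mem_left _ _ (Ideal.sub_mem _ h1 h2)

end Fibre

end Pool.Agent.Odp3
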